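import Pool.Agent.KIR.S2.Stm

/-!
# KIR, section S2, piece CH: the chains become stationary
-/

set_option autoImplicit false

namespace Pool.Agent.KIR.S2

open MvPolynomial Pool.Agent.KIR

namespace CHW

variable {σ : Type}

theorem opm_apply (g : σ → Option σ) (P : Ideal (S σ)) (f : S σ) :
    opm g P f = Polynomial.map (Ideal.Quotient.mk P) (op g f) := rfl

theorem stab {R : Type} [CommRing R] [IsNoetherianRing R] (I : ℕ → Ideal R) (h : Monotone I) :
    ∃ n, ∀ m, n ≤ m → I m = I n := by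
  obtain ⟨n, hn⟩ := monotone_stabilizes_iff_noetherian.2 (inferInstance : IsNoetherian R R)
    ⟨I, h⟩
  exact ⟨n, fun m hm => (hn m hm).symm⟩

theorem II_le (h4 : ∀ (g : σ → Option σ) (f : S σ), (op g f).coeff 0 = f) (g : σ → Option σ)
    (P : Ideal (S σ)) (i : ℕ) : II g P i ≤ P := by
  rintro f ⟨h, hh⟩
  have h1 := congrArg (fun F => Polynomial.coeff F 0) hh
  simp only [opm_apply, Polynomial.coeff_map, h4] at h1
  rw [Polynomial.finsetSum_coeff, Finset.sum_eq_zero] at h1
  · exact Ideal.Quotient.eq_zero_iff_mem.1 h1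
  · intro j _
    rw [pow_succ', mul_assoc, Polynomial.coeff_X_mul_zero]

theorem mem_II_of {g : σ → Option σ} {P : Ideal (S σ)} {f : S σ} (hf : f ∈ P)
    (h4 : (op g f).coeff 0 = f) {n : ℕ}
    (h5 : (Polynomial.C f : Polynomial (S σ)) =
      ∑ k ∈ Finset.range (n + 1), (-Polynomial.X) ^ k * op g ((op g f).coeff k)) :
    f ∈ II g P n := by
  refine ⟨fun j => (-1) ^ j * (op g f).coeff (j + 1), ?_⟩
  have h1 := congrArg (Polynomial.map (Ideal.Quotient.mk P)) h5
  rw [Polynomial.map_C, Ideal.Quotient.eq_zero_iff_mem.2 hf, map_zero, Polynomial.map_sum,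
    Finset.sum_range_succ'] at h1
  have h2 : ∀ k, Polynomial.map (Ideal.Quotient.mk P)
      ((-Polynomial.X) ^ k * op g ((op g f).coeff k)) =
      (-Polynomial.X) ^ k * opm g P ((op g f).coeff k) := by
    intro k
    rw [Polynomial.map_mul, Polynomial.map_pow, Polynomial.map_neg, Polynomial.map_X, opm_apply]
  rw [Finset.sum_congr rfl fun k _ => h2 (k + 1), h2 0, h4, pow_zero, one_mul] at h1
  have h3 : ∀ j, Polynomial.X ^ (j + 1) * opm g P ((-1) ^ j * (op g f).coeff (j + 1)) =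
      -((-Polynomial.X) ^ (j + 1) * opm g P ((op g f).coeff (j + 1))) := by
    intro j
    rw [map_mul, map_pow, map_neg, map_one, neg_pow (Polynomial.X : Polynomial (S σ ⧸ P))]
    ring
  rw [Finset.sum_congr rfl fun j _ => h3 j, Finset.sum_neg_distrib]
  exact eq_neg_of_add_eq_zero_right h1.symm

end CHW

open CHW in
/-- CH -/
theorem t_CH (hP : S_PZF) (hG : S_GRP) : S_CH := by
  intro σ _ _ g P hFlat
  obtain ⟨-, -, -, -, -, -, mJ, mI⟩ := hP σ g P
  obtain ⟨-, -, -, h4, h5⟩ := hG σ g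
  obtain ⟨N₁, h1⟩ := stab _ mJ
  obtain ⟨N₂, h2⟩ := stab _ mI
  have hJ : JI g P N₁ = JJ g P := by
    apply le_antisymm
    · intro f hf
      exact Ideal.subset_span ⟨N₁, hf⟩
    · refine Ideal.span_le.2 ?_
      rintro f ⟨N, hf⟩
      have h6 : f ∈ JI g P (max N N₁) := mJ (le_max_left N N₁) hf
      rw [h1 _ (le_max_right N N₁)] at h6
      exact h6
  have hI : II g P N₂ = P := by
    apply le_antisymm (II_le (fun g' f => (hG σ g').2.2.2.1 f) g P N₂)
    intro f hf
    obtain ⟨n, hn⟩ := h5 hFlat f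
    have h6 := mem_II_of hf (h4 f) (hn (n + 1) (Nat.le_succ n))
    have h7 := mI (le_max_left n N₂) h6
    rw [h2 _ (le_max_right n N₂)] at h7
    exact h7
  refine ⟨max N₁ N₂ + 1, Nat.succ_pos _, fun n hn => ?_, fun n hn => ?_⟩
  · rw [h1 n (by have := le_max_left N₁ N₂; omega), hJ]
  · rw [h2 n (by have := le_max_right N₁ N₂; omega), hI]

end Pool.Agent.KIR.S2
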