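import Pool.Agent.KIR.S2.Stm

/-!
Piece DIM of project KIR, section S2 (helper45).
-/

set_option autoImplicit false

namespace Pool.Agent.KIR.S2

open MvPolynomial Filter Topology Pool.Agent.KIR

/-- rank-nullity for the two projections of a relation -/
theorem dim_fst {V W : Type} [AddCommGroup V] [Module ℂ V] [AddCommGroup W] [Module ℂ W]
    (R : Submodule ℂ (V × W)) [FiniteDimensional ℂ R] :
    Module.finrank ℂ R = Module.finrank ℂ (R.map (LinearMap.fst ℂ V W)) +
      Module.finrank ℂ (R.comap (LinearMap.inr ℂ V W)) := by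
  have h := LinearMap.finrank_range_add_finrank_ker ((LinearMap.fst ℂ V W).domRestrict R)
  rw [LinearMap.range_domRestrict] at h
  let e : LinearMap.ker ((LinearMap.fst ℂ V W).domRestrict R) ≃ₗ[ℂ] R.comap (LinearMap.inr ℂ V W) :=
    { toFun := fun x => ⟨x.1.1.2, by
        have h1 : x.1.1.1 = 0 := x.2
        have h2 : x.1.1 = (0, x.1.1.2) := Prod.ext h1 rfl
        change (0, x.1.1.2) ∈ R
        rw [← h2]
        exact x.1.2⟩
      map_add' := fun _ _ => rfl
      map_smul' := fun _ _ => rfl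
      invFun := fun y => ⟨⟨(0, y.1), y.2⟩, rfl⟩
      left_inv := fun x => by
        have h1 : x.1.1.1 = 0 := x.2
        apply Subtype.ext
        apply Subtype.ext
        exact Prod.ext h1.symm rfl
      right_inv := fun y => rfl }
  rw [e.finrank_eq] at h
  exact h.symm

theorem dim_snd {V W : Type} [AddCommGroup V] [Module ℂ V] [AddCommGroup W] [Module ℂ W]
    (R : Submodule ℂ (V × W)) [FiniteDimensional ℂ R] :
    Module.finrank ℂ R = Module.finrank ℂ (R.map (LinearMap.snd ℂ V W)) +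
      Module.finrank ℂ (R.comap (LinearMap.inl ℂ V W)) := by
  have h := LinearMap.finrank_range_add_finrank_ker ((LinearMap.snd ℂ V W).domRestrict R)
  rw [LinearMap.range_domRestrict] at h
  let e : LinearMap.ker ((LinearMap.snd ℂ V W).domRestrict R) ≃ₗ[ℂ] R.comap (LinearMap.inl ℂ V W) :=
    { toFun := fun x => ⟨x.1.1.1, by
        have h1 : x.1.1.2 = 0 := x.2
        have h2 : x.1.1 = (x.1.1.1, 0) := Prod.ext rfl h1
        change (x.1.1.1, 0) ∈ R
        rw [← h2]
        exact x.1.2⟩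
      map_add' := fun _ _ => rfl
      map_smul' := fun _ _ => rfl
      invFun := fun y => ⟨⟨(y.1, 0), y.2⟩, rfl⟩
      left_inv := fun x => by
        have h1 : x.1.1.2 = 0 := x.2
        apply Subtype.ext
        apply Subtype.ext
        exact Prod.ext rfl h1.symm
      right_inv := fun y => rfl }
  rw [e.finrank_eq] at h
  exact h.symm

section

variable {σ : Type} [Fintype σ] [DecidableEq σ]

theorem dim_same (hZ : S_ZN) (w : σ → ℕ) (a : ℕ) (f : S σ) (hf : f ∈ weightedHomogeneousSubmodule ℂ w a) :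
    weightedHomogeneousComponent (fun s => (w s : ℤ)) (a : ℤ) f = f := by
  rw [(hZ σ w f).1 a]
  exact IsWeightedHomogeneous.weightedHomogeneousComponent_same ((mem_weightedHomogeneousSubmodule _ _ _ _).1 hf)

/-- `f` followed by the negatives of the `h j` -/
noncomputable def dimcs (f : S σ) (h : ℕ → S σ) : ℕ → S σ
  | 0 => f
  | (j + 1) => - h j

omit [Fintype σ] [DecidableEq σ] in
theorem dimcs_zero (f : S σ) (h : ℕ → S σ) : dimcs f h 0 = f := rfl

omit [Fintype σ] [DecidableEq σ] in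
theorem dimcs_succ (f : S σ) (h : ℕ → S σ) (j : ℕ) : dimcs f h (j + 1) = - h j := rfl

theorem dim_hgI (hG : S_HG) (hZ : S_ZN) (w : σ → ℕ) (g : σ → Option σ) (τ : ℕ) (P : Ideal (S σ))
    (hg : ∀ s s', g s = some s' → w s = w s' + τ) (hP : TGM (fun s => (w s : ℤ)) P) (m a : ℕ) (f : S σ)
    (hf : f ∈ weightedHomogeneousSubmodule ℂ w a) (h : ℕ → S σ)
    (hh : opm g P f = ∑ j ∈ Finset.range m, Polynomial.X ^ (j + 1) * opm g P (h j)) :
    opm g P f = ∑ j ∈ Finset.range m, Polynomial.X ^ (j + 1) *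
      opm g P (weightedHomogeneousComponent (fun s => (w s : ℤ)) ((a : ℤ) - (j + 1) * τ) (h j)) := by
  have h1 := hG σ ℤ (fun s => (w s : ℤ)) g (τ : ℤ) P (fun s s' hs => by
    have := hg s s' hs
    simp only [this, Nat.cast_add]) hP ℕ (Finset.range (m + 1)) id
    (dimcs f h) (by
      rw [Finset.sum_range_succ']
      simp only [id, pow_zero, one_mul, dimcs_zero, dimcs_succ, map_neg, mul_neg, Finset.sum_neg_distrib]
      rw [hh, neg_add_cancel]) (a : ℤ)
  rw [Finset.sum_range_succ'] at h1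
  simp only [id, pow_zero, one_mul, dimcs_zero, dimcs_succ, map_neg, mul_neg, Finset.sum_neg_distrib,
    zero_smul, sub_zero, nsmul_eq_mul, Nat.cast_add, Nat.cast_one] at h1
  rw [dim_same hZ w a f hf] at h1
  linear_combination h1

theorem dim_hgJ (hG : S_HG) (hZ : S_ZN) (w : σ → ℕ) (g : σ → Option σ) (τ : ℕ) (P : Ideal (S σ))
    (hg : ∀ s s', g s = some s' → w s = w s' + τ) (hP : TGM (fun s => (w s : ℤ)) P) (m b : ℕ) (u : S σ)
    (hu : u ∈ weightedHomogeneousSubmodule ℂ w b) (h : ℕ → S σ)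
    (hh : Polynomial.X ^ m * opm g P u = ∑ j ∈ Finset.range m, Polynomial.X ^ j * opm g P (h j)) :
    Polynomial.X ^ m * opm g P u = ∑ j ∈ Finset.range m, Polynomial.X ^ j *
      opm g P (weightedHomogeneousComponent (fun s => (w s : ℤ)) ((b : ℤ) + m * τ - j * τ) (h j)) := by
  have h1 := hG σ ℤ (fun s => (w s : ℤ)) g (τ : ℤ) P (fun s s' hs => by
    have := hg s s' hs
    simp only [this, Nat.cast_add]) hP ℕ (Finset.range (m + 1)) id
    (fun x => if x = m then u else - h x) (by
      rw [Finset.sum_range_succ]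
      simp only [id, if_true]
      have h2 : ∀ x ∈ Finset.range m, (Polynomial.X : Polynomial (S σ ⧸ P)) ^ x *
          opm g P (if x = m then u else - h x) = - (Polynomial.X ^ x * opm g P (h x)) := by
        intro x hx
        rw [Finset.mem_range] at hx
        rw [if_neg (by omega), map_neg, mul_neg]
      rw [Finset.sum_congr rfl h2, Finset.sum_neg_distrib, hh, neg_add_cancel]) ((b : ℤ) + m * τ)
  rw [Finset.sum_range_succ] at h1
  simp only [id, if_true, nsmul_eq_mul] at h1
  have h2 : ∀ x ∈ Finset.range m, (Polynomial.X : Polynomial (S σ ⧸ P)) ^ x *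
      opm g P (weightedHomogeneousComponent (fun s => (w s : ℤ)) ((b : ℤ) + m * τ - x * τ)
        (if x = m then u else - h x)) = - (Polynomial.X ^ x *
          opm g P (weightedHomogeneousComponent (fun s => (w s : ℤ)) ((b : ℤ) + m * τ - x * τ) (h x))) := by
    intro x hx
    rw [Finset.mem_range] at hx
    rw [if_neg (by omega), map_neg, map_neg, mul_neg]
  rw [Finset.sum_congr rfl h2, Finset.sum_neg_distrib, add_sub_cancel_right, dim_same hZ w b u hu] at h1
  linear_combination h1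

/-- the relation -/
def dimRel (w : σ → ℕ) (g : σ → Option σ) (P : Ideal (S σ)) (i a b : ℕ) (f u : S σ) : Prop :=
  f ∈ weightedHomogeneousSubmodule ℂ w a ∧ u ∈ weightedHomogeneousSubmodule ℂ w b ∧
    ∃ h : ℕ → S σ, opm g P f = ∑ j ∈ Finset.range i, Polynomial.X ^ (j + 1) * opm g P (h j) +
      Polynomial.X ^ (i + 1) * opm g P u

omit [Fintype σ] [DecidableEq σ] in
theorem dimRel_add (w : σ → ℕ) (g : σ → Option σ) (P : Ideal (S σ)) (i a b : ℕ) (f u f' u' : S σ)
    (h1 : dimRel w g P i a b f u) (h2 : dimRel w g P i a b f' u') :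
    dimRel w g P i a b (f + f') (u + u') := by
  obtain ⟨h1, h2', h, hh⟩ := h1
  obtain ⟨h1', h2'', h', hh'⟩ := h2
  refine ⟨Submodule.add_mem _ h1 h1', Submodule.add_mem _ h2' h2'', fun j => h j + h' j, ?_⟩
  rw [map_add, hh, hh', map_add, mul_add]
  simp only [map_add, mul_add, Finset.sum_add_distrib]
  ring

omit [Fintype σ] [DecidableEq σ] in
theorem dimRel_zero (w : σ → ℕ) (g : σ → Option σ) (P : Ideal (S σ)) (i a b : ℕ) :
    dimRel w g P i a b 0 0 := by
  refine ⟨Submodule.zero_mem _, Submodule.zero_mem _, fun _ => 0, ?_⟩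
  simp only [map_zero, mul_zero, Finset.sum_const_zero, add_zero]

omit [Fintype σ] [DecidableEq σ] in
theorem dimRel_smul (w : σ → ℕ) (g : σ → Option σ) (P : Ideal (S σ)) (i a b : ℕ) (c : ℂ) (f u : S σ)
    (h1 : dimRel w g P i a b f u) : dimRel w g P i a b (c • f) (c • u) := by
  obtain ⟨h1, h2, h, hh⟩ := h1
  refine ⟨Submodule.smul_mem _ c h1, Submodule.smul_mem _ c h2, fun j => C c * h j, ?_⟩
  rw [MvPolynomial.smul_eq_C_mul, MvPolynomial.smul_eq_C_mul, map_mul, map_mul, hh, mul_add, Finset.mul_sum]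
  congr 1
  · refine Finset.sum_congr rfl (fun j _ => ?_)
    rw [map_mul]
    ring
  · ring

/-- the relation as a subspace -/
def dimR (w : σ → ℕ) (g : σ → Option σ) (P : Ideal (S σ)) (i a b : ℕ) : Submodule ℂ (S σ × S σ) where
  carrier := {x | dimRel w g P i a b x.1 x.2}
  add_mem' := fun {x y} hx hy => dimRel_add w g P i a b x.1 x.2 y.1 y.2 hx hy
  zero_mem' := dimRel_zero w g P i a b
  smul_mem' := fun c x hx => dimRel_smul w g P i a b c x.1 x.2 hx

omit [Fintype σ] [DecidableEq σ] in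
theorem mem_dimR (w : σ → ℕ) (g : σ → Option σ) (P : Ideal (S σ)) (i a b : ℕ) (x : S σ × S σ) :
    x ∈ dimR w g P i a b ↔ dimRel w g P i a b x.1 x.2 := Iff.rfl

omit [Fintype σ] [DecidableEq σ] in
theorem mem_AI (w : σ → ℕ) (a : ℕ) (I : Ideal (S σ)) (f : S σ) :
    f ∈ (weightedHomogeneousSubmodule ℂ w a ⊓ I.restrictScalars ℂ : Submodule ℂ (S σ)) ↔
      f ∈ weightedHomogeneousSubmodule ℂ w a ∧ f ∈ I := Iff.rfl

/-- `h` with value `u` at `i` -/
noncomputable def dimup (i : ℕ) (u : S σ) (h : ℕ → S σ) : ℕ → S σ := fun j => if j = i then u else h j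

omit [Fintype σ] [DecidableEq σ] in
theorem dimup_sum (g : σ → Option σ) (P : Ideal (S σ)) (i : ℕ) (u : S σ) (h : ℕ → S σ) :
    ∑ j ∈ Finset.range (i + 1), (Polynomial.X : Polynomial (S σ ⧸ P)) ^ (j + 1) * opm g P (dimup i u h j) =
      ∑ j ∈ Finset.range i, Polynomial.X ^ (j + 1) * opm g P (h j) + Polynomial.X ^ (i + 1) * opm g P u := by
  have h1 : ∀ j ∈ Finset.range i, dimup i u h j = h j := by
    intro j hj
    rw [Finset.mem_range] at hj
    exact if_neg (by omega)
  have h2 : dimup i u h i = u := if_pos rfl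
  have h3 : ∑ j ∈ Finset.range i, (Polynomial.X : Polynomial (S σ ⧸ P)) ^ (j + 1) * opm g P (dimup i u h j) =
      ∑ j ∈ Finset.range i, Polynomial.X ^ (j + 1) * opm g P (h j) :=
    Finset.sum_congr rfl (fun j hj => by rw [h1 j hj])
  rw [Finset.sum_range_succ, h3, h2]

theorem dim_map_fst (hG : S_HG) (hZ : S_ZN) (w : σ → ℕ) (g : σ → Option σ) (τ : ℕ) (P : Ideal (S σ))
    (hg : ∀ s s', g s = some s' → w s = w s' + τ) (hP : TGM (fun s => (w s : ℤ)) P) (i a b : ℕ)
    (hab : a = b + (i + 1) * τ) :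
    (dimR w g P i a b).map (LinearMap.fst ℂ (S σ) (S σ)) =
      weightedHomogeneousSubmodule ℂ w a ⊓ (II g P (i + 1)).restrictScalars ℂ := by
  ext f
  rw [Submodule.mem_map, mem_AI, mem_II]
  constructor
  · intro hx
    obtain ⟨x, hx, hxf⟩ := hx
    rw [mem_dimR] at hx
    obtain ⟨h1, h2, h, hh⟩ := hx
    have hxf' : x.1 = f := hxf
    rw [hxf'] at h1 hh
    exact ⟨h1, dimup i x.2 h, by rw [hh, dimup_sum]⟩
  · intro hx
    obtain ⟨h1, h, hh⟩ := hx
    have h2 := dim_hgI hG hZ w g τ P hg hP (i + 1) a f h1 h hh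
    rw [Finset.sum_range_succ] at h2
    have h3 : (a : ℤ) - ((i : ℤ) + 1) * τ = (b : ℤ) := by
      rw [hab]
      push_cast
      ring
    rw [h3, (hZ σ w (h i)).1 b] at h2
    refine ⟨(f, weightedHomogeneousComponent w b (h i)), ?_, rfl⟩
    rw [mem_dimR]
    exact ⟨h1, weightedHomogeneousComponent_mem w (h i) b, _, h2⟩

theorem dim_map_snd (hG : S_HG) (hZ : S_ZN) (w : σ → ℕ) (g : σ → Option σ) (τ : ℕ) (P : Ideal (S σ))
    (hg : ∀ s s', g s = some s' → w s = w s' + τ) (hP : TGM (fun s => (w s : ℤ)) P) (i a b : ℕ)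
    (hab : a = b + (i + 1) * τ) :
    (dimR w g P i a b).map (LinearMap.snd ℂ (S σ) (S σ)) =
      weightedHomogeneousSubmodule ℂ w b ⊓ (JI g P (i + 1)).restrictScalars ℂ := by
  ext u
  constructor
  · rintro ⟨x, ⟨h1, h2, h, hh⟩, rfl⟩
    refine ⟨h2, dimcs x.1 h, ?_⟩
    change Polynomial.X ^ (i + 1) * opm g P x.2 = _
    rw [Finset.sum_range_succ']
    simp only [pow_zero, one_mul, dimcs_zero, dimcs_succ, map_neg, mul_neg, Finset.sum_neg_distrib]
    rw [hh]
    ring
  · rintro ⟨h1, h, hh⟩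
    have h2 := dim_hgJ hG hZ w g τ P hg hP (i + 1) b u h1 h hh
    rw [Finset.sum_range_succ'] at h2
    have h3 : (b : ℤ) + ((i + 1 : ℕ) : ℤ) * τ - ((0 : ℕ) : ℤ) * τ = (a : ℤ) := by
      rw [hab]
      push_cast
      ring
    rw [h3, (hZ σ w (h 0)).1 a, pow_zero, one_mul] at h2
    refine ⟨(weightedHomogeneousComponent w a (h 0), u),
      ⟨weightedHomogeneousComponent_mem w (h 0) a, h1,
        fun j => - weightedHomogeneousComponent (fun s => (w s : ℤ))
          ((b : ℤ) + ((i + 1 : ℕ) : ℤ) * τ - ((j + 1 : ℕ) : ℤ) * τ) (h (j + 1)), ?_⟩, rfl⟩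
    simp only [map_neg, mul_neg, Finset.sum_neg_distrib]
    rw [h2]
    ring

omit [Fintype σ] [DecidableEq σ] in
theorem dim_comap_inr (w : σ → ℕ) (g : σ → Option σ) (P : Ideal (S σ)) (i a b : ℕ) :
    (dimR w g P i a b).comap (LinearMap.inr ℂ (S σ) (S σ)) =
      weightedHomogeneousSubmodule ℂ w b ⊓ (JI g P i).restrictScalars ℂ := by
  ext u
  constructor
  · rintro ⟨h1, h2, h, hh⟩
    refine ⟨h2, fun j => - h j, ?_⟩
    have h3 : opm g P (0 : S σ) = ∑ j ∈ Finset.range i, Polynomial.X ^ (j + 1) * opm g P (h j) +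
      Polynomial.X ^ (i + 1) * opm g P u := hh
    apply (Polynomial.isRegular_X (R := S σ ⧸ P)).right
    change Polynomial.X ^ i * opm g P u * Polynomial.X = (∑ j ∈ Finset.range i, Polynomial.X ^ j * opm g P (- h j)) *
      Polynomial.X
    rw [map_zero] at h3
    simp only [map_neg, mul_neg, Finset.sum_neg_distrib]
    have h4 : (∑ j ∈ Finset.range i, Polynomial.X ^ j * opm g P (h j)) * Polynomial.X =
        ∑ j ∈ Finset.range i, Polynomial.X ^ (j + 1) * opm g P (h j) := by
      rw [Finset.sum_mul]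
      refine Finset.sum_congr rfl (fun j _ => ?_)
      ring
    rw [neg_mul, h4]
    linear_combination -h3
  · rintro ⟨h1, h, hh⟩
    refine ⟨Submodule.zero_mem _, h1, fun j => - h j, ?_⟩
    change opm g P (0 : S σ) = ∑ j ∈ Finset.range i, Polynomial.X ^ (j + 1) * opm g P (- h j) +
      Polynomial.X ^ (i + 1) * opm g P u
    simp only [map_neg, mul_neg, Finset.sum_neg_distrib, map_zero]
    have h4 : (∑ j ∈ Finset.range i, Polynomial.X ^ j * opm g P (h j)) * Polynomial.X =
        ∑ j ∈ Finset.range i, Polynomial.X ^ (j + 1) * opm g P (h j) := by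
      rw [Finset.sum_mul]
      refine Finset.sum_congr rfl (fun j _ => ?_)
      ring
    rw [← h4, ← hh]
    ring

omit [Fintype σ] [DecidableEq σ] in
theorem dim_comap_inl (w : σ → ℕ) (g : σ → Option σ) (P : Ideal (S σ)) (i a b : ℕ) :
    (dimR w g P i a b).comap (LinearMap.inl ℂ (S σ) (S σ)) =
      weightedHomogeneousSubmodule ℂ w a ⊓ (II g P i).restrictScalars ℂ := by
  ext f
  constructor
  · rintro ⟨h1, h2, h, hh⟩
    refine ⟨h1, h, ?_⟩
    have h3 : opm g P f = ∑ j ∈ Finset.range i, Polynomial.X ^ (j + 1) * opm g P (h j) +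
      Polynomial.X ^ (i + 1) * opm g P (0 : S σ) := hh
    rw [map_zero, mul_zero, add_zero] at h3
    exact h3
  · rintro ⟨h1, h, hh⟩
    refine ⟨h1, Submodule.zero_mem _, h, ?_⟩
    change opm g P f = ∑ j ∈ Finset.range i, Polynomial.X ^ (j + 1) * opm g P (h j) +
      Polynomial.X ^ (i + 1) * opm g P (0 : S σ)
    rw [map_zero, mul_zero, add_zero]
    exact hh

end

theorem t_DIM (hG : S_HG) (hZ : S_ZN) (hF : S_HFD) : S_DIM := by
  intro σ _ _ w g τ P hw hg hP i a
  by_cases hle : (i + 1) * τ ≤ a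
  · rw [if_pos hle, if_pos hle]
    obtain ⟨b, hb⟩ := Nat.exists_eq_add_of_le hle
    have hb' : a - (i + 1) * τ = b := by omega
    rw [hb']
    have hab : a = b + (i + 1) * τ := by omega
    have hfa : Module.Finite ℂ (weightedHomogeneousSubmodule ℂ w a) := (hF σ w hw a).1
    have hfb : Module.Finite ℂ (weightedHomogeneousSubmodule ℂ w b) := (hF σ w hw b).1
    have hRle : dimR w g P i a b ≤
        (weightedHomogeneousSubmodule ℂ w a).prod (weightedHomogeneousSubmodule ℂ w b) :=
      fun x hx => ⟨hx.1, hx.2.1⟩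
    have hprod : FiniteDimensional ℂ
        ((weightedHomogeneousSubmodule ℂ w a).prod (weightedHomogeneousSubmodule ℂ w b) :
          Submodule ℂ (S σ × S σ)) := by
      exact Module.Finite.iff_fg.2 (Submodule.FG.prod (Module.Finite.iff_fg.1 hfa) (Module.Finite.iff_fg.1 hfb))
    have hR : FiniteDimensional ℂ (dimR w g P i a b) :=
      Submodule.finiteDimensional_of_le hRle
    have h1 := dim_fst (dimR w g P i a b)
    have h2 := dim_snd (dimR w g P i a b)
    rw [dim_map_fst hG hZ w g τ P hg hP i a b hab, dim_comap_inr] at h1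
    rw [dim_map_snd hG hZ w g τ P hg hP i a b hab, dim_comap_inl] at h2
    unfold fr
    omega
  · rw [if_neg hle, if_neg hle, add_zero, add_zero]
    unfold fr
    have h1 : (weightedHomogeneousSubmodule ℂ w a ⊓ (II g P (i + 1)).restrictScalars ℂ : Submodule ℂ (S σ)) =
        weightedHomogeneousSubmodule ℂ w a ⊓ (II g P i).restrictScalars ℂ := by
      ext f
      constructor
      · rintro ⟨h1, h, hh⟩
        have h2 := dim_hgI hG hZ w g τ P hg hP (i + 1) a f h1 h hh
        rw [Finset.sum_range_succ, (hZ σ w (h i)).2 _ (by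
          have : (a : ℤ) < ((i + 1) * τ : ℕ) := by exact_mod_cast not_le.1 hle
          push_cast at this
          linarith), map_zero, mul_zero, add_zero] at h2
        exact ⟨h1, _, h2⟩
      · rintro ⟨h1, h, hh⟩
        refine ⟨h1, fun j => if j = i then 0 else h j, ?_⟩
        rw [hh, Finset.sum_range_succ]
        simp only [if_true, map_zero, mul_zero, add_zero]
        refine Finset.sum_congr rfl (fun j hj => ?_)
        rw [Finset.mem_range] at hj
        rw [if_neg (by omega)]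
    rw [h1]

end Pool.Agent.KIR.S2
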