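import Pool.Agent.KIR.S2.Stm
/-!
# KIR, section S2, piece GRP (helper33)
-/
set_option autoImplicit false
set_option linter.all false
namespace Pool.Agent.KIR.S2
open MvPolynomial Filter Topology Pool.Agent.KIR

theorem GRP.op_X {σ : Type} (g : σ → Option σ) (s : σ) : op g (X s) = Polynomial.C (X s) +
    Polynomial.X * ((g s).elim 0 (fun s' => Polynomial.C (X s'))) := by
  unfold op; rw [aeval_X]

theorem GRP.sub_X {σ : Type} (g : σ → Option σ) (t : ℂ) (s : σ) : sub g t (X s) =
    X s + C t * ((g s).elim 0 (fun s' => X s')) := by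
  unfold sub; rw [aeval_X]

theorem GRP.sub_C {σ : Type} (g : σ → Option σ) (t r : ℂ) : sub g t (C r) = C r :=
  (sub g t).commutes r

theorem GRP.op_C {σ : Type} (g : σ → Option σ) (r : ℂ) : op g (C r) = Polynomial.C (C r) :=
  (op g).commutes r

theorem GRP.one {σ : Type} (g : σ → Option σ) (t : ℂ) (f : S σ) :
    (op g f).eval (C t) = sub g t f := by
  have h : (Polynomial.evalRingHom (C t)).comp ((op g : S σ →ₐ[ℂ] Polynomial (S σ)) :
      S σ →+* Polynomial (S σ)) = ((sub g t : S σ →ₐ[ℂ] S σ) : S σ →+* S σ) := by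
    refine MvPolynomial.ringHom_ext (fun r => ?_) fun s => ?_
    · rw [RingHom.comp_apply, RingHom.coe_coe, RingHom.coe_coe, GRP.op_C, GRP.sub_C,
        Polynomial.coe_evalRingHom, Polynomial.eval_C]
    · rw [RingHom.comp_apply, RingHom.coe_coe, RingHom.coe_coe, GRP.op_X, GRP.sub_X,
        Polynomial.coe_evalRingHom, Polynomial.eval_add, Polynomial.eval_mul, Polynomial.eval_X,
        Polynomial.eval_C]
      congr 2
      cases g s with
      | none => simp
      | some s' => simp
  exact RingHom.congr_fun h f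

theorem GRP.two {σ : Type} (g : σ → Option σ) (hg : Flat g) (t r : ℂ) (f : S σ) :
    sub g t (sub g r f) = sub g (t + r) f := by
  have h : (sub g t).comp (sub g r) = sub g (t + r) := by
    refine MvPolynomial.algHom_ext fun s => ?_
    rw [AlgHom.comp_apply, GRP.sub_X, GRP.sub_X, map_add, map_mul, GRP.sub_C, GRP.sub_X]
    cases hs : g s with
    | none => simp
    | some s' =>
      simp only [Option.elim_some]
      rw [GRP.sub_X, hg s s' hs, Option.elim_none, C_add]
      ring
  exact AlgHom.congr_fun h f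

theorem GRP.three {σ : Type} (g : σ → Option σ) (f : S σ) : sub g 0 f = f := by
  have h : sub g 0 = AlgHom.id ℂ (S σ) := by
    refine MvPolynomial.algHom_ext fun s => ?_
    rw [GRP.sub_X, C_0, zero_mul, add_zero]
    rfl
  rw [h]; rfl

theorem t_GRP : S_GRP := by
  intro σ _ _ g
  refine ⟨GRP.one g, GRP.two g, GRP.three g, fun f => ?_, fun hg f => ?_⟩
  · have h := GRP.one g 0 f
    rw [C_0, ← Polynomial.coeff_zero_eq_eval_zero, GRP.three] at h
    exact h
  · refine ⟨(op g f).natDegree + 1, fun N hN => ?_⟩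
    refine Polynomial.eq_of_infinite_eval_eq _ _ ?_
    refine Set.infinite_of_injective_forall_mem (f := fun t : ℂ => (C t : S σ))
      (C_injective σ ℂ) fun t => ?_
    rw [Set.mem_setOf_eq, Polynomial.eval_C, Polynomial.eval_finset_sum]
    have h1 : ∀ k ∈ Finset.range N, Polynomial.eval (C t)
        ((-Polynomial.X) ^ k * op g ((op g f).coeff k)) =
        sub g t ((op g f).coeff k * (C (-t)) ^ k) := by
      intro k _
      rw [Polynomial.eval_mul, Polynomial.eval_pow, Polynomial.eval_neg, Polynomial.eval_X,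
        GRP.one, map_mul, map_pow, GRP.sub_C, C_neg]
      ring
    rw [Finset.sum_congr rfl h1, ← map_sum, ← Polynomial.eval_eq_sum_range' (by omega), GRP.one,
      GRP.two g hg, add_neg_cancel, GRP.three]

end Pool.Agent.KIR.S2
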