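import Pool.Agent.KIR.S2.Stm
import Pool.Agent.KIR.Base
/-! KIR S2, piece HFD from `Base.lean` (helper6) -/
set_option autoImplicit false
namespace Pool.Agent.KIR.S2
open MvPolynomial Pool.Agent.KIR

theorem t_HFD' : S_HFD := by
  intro σ _ _ w hw a
  refine ⟨Base.fd w hw a, fun I => ?_, Base.finrank_Sa_le w hw a⟩
  have h := Base.hf_eq w hw I a
  have e : Base.Ia w I a = (weightedHomogeneousSubmodule ℂ w a ⊓ I.restrictScalars ℂ :
      Submodule ℂ (S σ)) := by
    ext f
    rw [Base.mem_Ia, Submodule.mem_inf]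
    exact Iff.rfl
  rw [e] at h
  exact h

end Pool.Agent.KIR.S2
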