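import Pool.Agent.KIR.S2.Stm
/-!
# KIR, section S2, piece HG: relations split into homogeneous relations
-/
set_option autoImplicit false
namespace Pool.Agent.KIR.S2
open MvPolynomial Filter Topology Pool.Agent.KIR

theorem HG_coeff {σ : Type} (g : σ → Option σ) (P : Ideal (S σ)) {ι : Type} (s : Finset ι)
    (n : ι → ℕ) (f : ι → S σ) (k : ℕ) :
    (∑ x ∈ s, Polynomial.X ^ (n x) * opm g P (f x)).coeff k =
      Ideal.Quotient.mk P (∑ x ∈ s, if n x ≤ k then (op g (f x)).coeff (k - n x) else 0) := by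
  rw [Polynomial.finset_sum_coeff, map_sum]
  refine Finset.sum_congr rfl fun x _ => ?_
  rw [Polynomial.coeff_X_pow_mul']
  split_ifs with h
  · show (Polynomial.map (Ideal.Quotient.mk P) (op g (f x))).coeff (k - n x) = _
    rw [Polynomial.coeff_map]
  · rw [map_zero]

theorem t_HG (hHOM : S_HOM) : S_HG := by
  intro σ M _ _ _ W g α P hW hP ι s n f h0 d
  ext k
  rw [HG_coeff, Polynomial.coeff_zero, Ideal.Quotient.eq_zero_iff_mem]
  have h1 : ∑ x ∈ s, (if n x ≤ k then (op g (f x)).coeff (k - n x) else 0) ∈ P := by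
    rw [← Ideal.Quotient.eq_zero_iff_mem, ← HG_coeff, h0, Polynomial.coeff_zero]
  have h2 := hP _ h1 (d - k • α)
  rw [map_sum] at h2
  convert h2 using 1
  refine Finset.sum_congr rfl fun x _ => ?_
  split_ifs with h
  · rw [hHOM σ M W g α hW (f x) (k - n x) (d - k • α)]
    have e : d - k • α + (k - n x) • α = d - n x • α := by
      obtain ⟨j, hj⟩ := Nat.exists_eq_add_of_le h
      rw [hj, Nat.add_sub_cancel_left, add_smul]
      abel
    rw [e]
  · rw [map_zero]

end Pool.Agent.KIR.S2
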