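import Pool.Agent.KIR.S2.Stm
/-!
# KIR, section S2, piece HOM
-/
set_option autoImplicit false
namespace Pool.Agent.KIR.S2
open MvPolynomial Filter Topology Pool.Agent.KIR

namespace HOMP

variable {σ M : Type} [AddCommGroup M]

/-- the coefficients of `F` have the weights `d - k • α` -/
def HW (W : σ → M) (α d : M) (F : Polynomial (S σ)) : Prop :=
  ∀ k : ℕ, F.coeff k ∈ weightedHomogeneousSubmodule ℂ W (d - k • α)

theorem HW_mul {W : σ → M} {α d d' : M} {F F' : Polynomial (S σ)} (h : HW W α d F)
    (h' : HW W α d' F') : HW W α (d + d') (F * F') := by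
  intro k
  rw [Polynomial.coeff_mul]
  refine Submodule.sum_mem _ ?_
  rintro ⟨i, j⟩ hij
  have hk : i + j = k := Finset.HasAntidiagonal.mem_antidiagonal.1 hij
  have h1 : IsWeightedHomogeneous W (F.coeff i * F'.coeff j) ((d - i • α) + (d' - j • α)) :=
    IsWeightedHomogeneous.mul (h i) (h' j)
  have h2 : (d - i • α) + (d' - j • α) = d + d' - k • α := by
    rw [← hk, add_smul]; abel
  rw [h2] at h1
  exact h1

theorem HW_C (W : σ → M) (α : M) (c : ℂ) :
    HW W α 0 (algebraMap ℂ (Polynomial (S σ)) c) := by
  intro k
  have h0 : algebraMap ℂ (Polynomial (S σ)) c = Polynomial.C (MvPolynomial.C c) := rfl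
  rw [h0, Polynomial.coeff_C]
  split_ifs with hk
  · rw [hk, zero_smul, sub_zero]
    exact isWeightedHomogeneous_C W c
  · exact Submodule.zero_mem _

theorem HW_one (W : σ → M) (α : M) : HW W α 0 (1 : Polynomial (S σ)) := by
  have := HW_C W α 1
  rwa [map_one] at this

theorem HW_pow {W : σ → M} {α d : M} {F : Polynomial (S σ)} (h : HW W α d F) (n : ℕ) :
    HW W α (n • d) (F ^ n) := by
  induction n with
  | zero => rw [zero_smul, pow_zero]; exact HW_one W α
  | succ n ih =>
    rw [add_smul, one_smul, pow_succ]
    exact HW_mul ih h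

theorem HW_prod {W : σ → M} {α : M} (t : Finset σ) (F : σ → Polynomial (S σ)) (d : σ → M)
    (h : ∀ s ∈ t, HW W α (d s) (F s)) : HW W α (∑ s ∈ t, d s) (∏ s ∈ t, F s) := by
  classical
  induction t using Finset.induction_on with
  | empty => simpa using HW_one W α
  | insert s t hs ih =>
    rw [Finset.sum_insert hs, Finset.prod_insert hs]
    exact HW_mul (h s (Finset.mem_insert_self s t))
      (ih fun x hx => h x (Finset.mem_insert_of_mem hx))

theorem HW_X {W : σ → M} {g : σ → Option σ} {α : M}
    (hg : ∀ s s', g s = some s' → W s = W s' + α) (s : σ) :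
    HW W α (W s) (Polynomial.C (X s) +
      Polynomial.X * ((g s).elim 0 (fun s' => Polynomial.C (X s')))) := by
  intro k
  rw [Polynomial.coeff_add]
  refine Submodule.add_mem _ ?_ ?_
  · rw [Polynomial.coeff_C]
    split_ifs with hk
    · rw [hk, zero_smul, sub_zero]
      exact isWeightedHomogeneous_X ℂ W s
    · exact Submodule.zero_mem _
  · cases k with
    | zero =>
      rw [Polynomial.coeff_X_mul_zero]
      exact Submodule.zero_mem _
    | succ k =>
      rw [Polynomial.coeff_X_mul]
      cases hs : g s with
      | none =>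
        simp only [Option.elim_none, Polynomial.coeff_zero]
        exact Submodule.zero_mem _
      | some s' =>
        simp only [Option.elim_some]
        rw [Polynomial.coeff_C]
        split_ifs with hk
        · have h2 : W s - (k + 1) • α = W s' := by
            rw [hk, zero_add, one_smul, hg s s' hs]; abel
          rw [h2]
          exact isWeightedHomogeneous_X ℂ W s'
        · exact Submodule.zero_mem _

theorem HW_monomial {W : σ → M} {g : σ → Option σ} {α : M}
    (hg : ∀ s s', g s = some s' → W s = W s' + α) (m : σ →₀ ℕ) (c : ℂ) :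
    HW W α (Finsupp.weight W m) (op g (monomial m c)) := by
  unfold op
  rw [aeval_monomial, Finsupp.weight_apply]
  have h1 := HW_prod (W := W) (α := α) m.support
    (fun s => (Polynomial.C (X s) +
      Polynomial.X * ((g s).elim 0 (fun s' => Polynomial.C (X s')))) ^ (m s))
    (fun s => (m s) • W s) (fun s _ => HW_pow (HW_X hg s) (m s))
  have h2 := HW_mul (HW_C W α c) h1
  rw [zero_add] at h2
  exact h2

end HOMP

open HOMP in
theorem t_HOM : S_HOM := by
  classical
  intro σ M _ _ _ W g α hg f k e
  induction f using MvPolynomial.induction_on' with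
  | monomial m c =>
    have h1 := HW_monomial hg m c k
    have h2 : monomial m c ∈ weightedHomogeneousSubmodule ℂ W (Finsupp.weight W m) :=
      isWeightedHomogeneous_monomial W m c rfl
    rw [weightedHomogeneousComponent_of_mem h1, weightedHomogeneousComponent_of_mem h2]
    by_cases h3 : e = Finsupp.weight W m - k • α
    · rw [if_pos h3, if_pos (by rw [h3]; abel)]
    · rw [if_neg h3, if_neg (fun h => h3 (by rw [← h]; abel))]
      simp
  | add p q hp hq =>
    rw [map_add, Polynomial.coeff_add, map_add, map_add, map_add, Polynomial.coeff_add, hp, hq]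

end Pool.Agent.KIR.S2
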