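import Pool.Agent.KIR.S2.Stm
/-! KIR S2, piece HSI (helper6) -/
set_option autoImplicit false
namespace Pool.Agent.KIR.S2
open MvPolynomial Pool.Agent.KIR

/-- shift of a series -/
theorem HSI6.shift (x : ℕ → ℝ) (q : ℝ) (e : ℕ) (h : Summable fun a => x a * q ^ a) :
    Summable (fun a : ℕ => (if e ≤ a then x (a - e) else 0) * q ^ a) ∧
    ∑' a : ℕ, (if e ≤ a then x (a - e) else 0) * q ^ a = q ^ e * ∑' a : ℕ, x a * q ^ a := by
  have h1 : ∀ a : ℕ, (if e ≤ a + e then x (a + e - e) else 0) * q ^ (a + e) =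
      q ^ e * (x a * q ^ a) := by
    intro a
    rw [if_pos (Nat.le_add_left _ _), Nat.add_sub_cancel, pow_add]
    ring
  have hs : Summable (fun a : ℕ => (if e ≤ a then x (a - e) else 0) * q ^ a) := by
    rw [← summable_nat_add_iff e]
    simp only [h1]
    exact h.mul_left _
  refine ⟨hs, ?_⟩
  rw [← hs.sum_add_tsum_nat_add e]
  have h2 : ∑ a ∈ Finset.range e, (if e ≤ a then x (a - e) else 0) * q ^ a = 0 := by
    refine Finset.sum_eq_zero fun a ha => ?_
    rw [if_neg (not_le.2 (Finset.mem_range.1 ha)), zero_mul]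
  rw [h2, zero_add]
  simp only [h1]
  rw [tsum_mul_left]

theorem t_HSI' (hF : S_HFD) (hD : S_DIM) (hS : S_SUM) : S_HSI := by
  intro σ _ _ w g τ P hw hg hP i q hq0 hq1
  have key : ∀ a : ℕ, hf w (II g P i) a +
      (if (i + 1) * τ ≤ a then hf w (JI g P (i + 1)) (a - (i + 1) * τ) else 0) =
      hf w (II g P (i + 1)) a +
      (if (i + 1) * τ ≤ a then hf w (JI g P i) (a - (i + 1) * τ) else 0) := by
    intro a
    have h0 := hD σ w g τ P hw hg hP i a
    have h1 := (hF σ w hw a).2.1 (II g P i)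
    have h2 := (hF σ w hw a).2.1 (II g P (i + 1))
    have h3 := (hF σ w hw (a - (i + 1) * τ)).2.1 (JI g P i)
    have h4 := (hF σ w hw (a - (i + 1) * τ)).2.1 (JI g P (i + 1))
    by_cases h : (i + 1) * τ ≤ a
    · simp only [if_pos h] at h0 ⊢
      omega
    · simp only [if_neg h] at h0 ⊢
      omega
  have s1 := (hS σ w hw (II g P i) q hq0 hq1).1
  have s2 := (hS σ w hw (II g P (i + 1)) q hq0 hq1).1
  obtain ⟨s3, e3⟩ := HSI6.shift (fun a => (hf w (JI g P (i + 1)) a : ℝ)) q ((i + 1) * τ)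
    (hS σ w hw (JI g P (i + 1)) q hq0 hq1).1
  obtain ⟨s4, e4⟩ := HSI6.shift (fun a => (hf w (JI g P i) a : ℝ)) q ((i + 1) * τ)
    (hS σ w hw (JI g P i) q hq0 hq1).1
  unfold Hs
  rw [← e3, ← e4, ← s1.tsum_add s3, ← s2.tsum_add s4]
  refine tsum_congr fun a => ?_
  rw [← add_mul, ← add_mul]
  congr 1
  have := key a
  have h5 : ((hf w (II g P i) a +
      (if (i + 1) * τ ≤ a then hf w (JI g P (i + 1)) (a - (i + 1) * τ) else 0) : ℕ) : ℝ) =
      ((hf w (II g P (i + 1)) a +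
      (if (i + 1) * τ ≤ a then hf w (JI g P i) (a - (i + 1) * τ) else 0) : ℕ) : ℝ) := by
    rw [this]
  push_cast at h5
  exact h5

end Pool.Agent.KIR.S2
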