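import Pool.Agent.KIR.S2.Stm

/-!
# KIR, section S2, piece NJ (helper55): `J_N` is stable under a group that normalizes `g`
-/

set_option autoImplicit false

namespace Pool.Agent.KIR.S2

open MvPolynomial Pool.Agent.KIR

namespace NJ

variable {σ : Type}

theorem eval_op (g : σ → Option σ) (t : ℂ) (f : S σ) : (op g f).eval (C t) = sub g t f := by
  have key : (Polynomial.evalRingHom (C t : S σ)).comp ((op g : S σ →ₐ[ℂ] Polynomial (S σ)) :
      S σ →+* Polynomial (S σ)) = ((sub g t : S σ →ₐ[ℂ] S σ) : S σ →+* S σ) := by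
    refine MvPolynomial.ringHom_ext (fun c => ?_) (fun s => ?_)
    · have h1 : (C c : S σ) = algebraMap ℂ (S σ) c := rfl
      have h2 : (algebraMap ℂ (Polynomial (S σ)) c) = Polynomial.C (algebraMap ℂ (S σ) c) := rfl
      rw [RingHom.comp_apply, RingHom.coe_coe, RingHom.coe_coe, h1, AlgHom.commutes,
        AlgHom.commutes, h2]
      simp
    · rw [RingHom.comp_apply, RingHom.coe_coe, RingHom.coe_coe]
      unfold op sub
      rw [aeval_X, aeval_X]
      rcases g s with _ | s'
      · simp
      · simp only [Option.elim_some, Polynomial.coe_evalRingHom, Polynomial.eval_add,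
          Polynomial.eval_mul, Polynomial.eval_C, Polynomial.eval_X]
  exact congrArg (fun F : S σ →+* S σ => F f) key

/-- stability for complex parameters -/
theorem sub_mem (g : σ → Option σ) (P : Ideal (S σ)) (hP : Stab g P) (t : ℂ) (f : S σ)
    (hf : f ∈ P) : sub g t f ∈ P := by
  rw [← eval_op, Polynomial.eval_eq_sum_range]
  exact Ideal.sum_mem _ fun k _ => Ideal.mul_mem_right _ _ (hP f hf k)

/-- the ring homomorphism `ψ` on constants -/
noncomputable def psi (h k : σ → Option σ) (c r : ℂ) : S σ →+* Polynomial (S σ) :=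
  (Polynomial.mapRingHom ((sub h r : S σ →ₐ[ℂ] S σ) : S σ →+* S σ)).comp
    ((Polynomial.compRingHom (Polynomial.C (C c) * Polynomial.X)).comp
      ((op k : S σ →ₐ[ℂ] Polynomial (S σ)) : S σ →+* Polynomial (S σ)))

/-- the ring homomorphism `A` -/
noncomputable def A (h k : σ → Option σ) (c r : ℂ) : Polynomial (S σ) →+* Polynomial (S σ) :=
  Polynomial.eval₂RingHom (psi h k c r) Polynomial.X

theorem A_X (h k : σ → Option σ) (c r : ℂ) : A h k c r Polynomial.X = Polynomial.X := by
  simp [A]

theorem A_C (h k : σ → Option σ) (c r : ℂ) (f : S σ) :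
    A h k c r (Polynomial.C f) = psi h k c r f := by
  simp [A]

theorem sub_C (h : σ → Option σ) (r c : ℂ) : sub h r (C c) = C c := by
  have h1 : (C c : S σ) = algebraMap ℂ (S σ) c := rfl
  rw [h1, AlgHom.commutes]

theorem eval_psi (h k : σ → Option σ) (c r t : ℂ) (f : S σ) :
    (psi h k c r f).eval (C t) = sub h r (sub k (c * t) f) := by
  unfold psi
  rw [RingHom.comp_apply, RingHom.comp_apply, RingHom.coe_coe, Polynomial.coe_mapRingHom,
    Polynomial.coe_compRingHom_apply]
  have e1 : (C t : S σ) = ((sub h r : S σ →ₐ[ℂ] S σ) : S σ →+* S σ) (C t) := by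
    rw [RingHom.coe_coe, sub_C]
  rw [e1, Polynomial.eval_map_apply, Polynomial.eval_comp, RingHom.coe_coe, ← eval_op k]
  congr 2
  simp

theorem eval_A (h k : σ → Option σ) (c r t : ℂ) (F : Polynomial (S σ)) :
    (A h k c r F).eval (C t) = sub h r (sub k (c * t) (F.eval (C t))) := by
  have key : (Polynomial.evalRingHom (C t : S σ)).comp (A h k c r) =
      (((sub h r : S σ →ₐ[ℂ] S σ) : S σ →+* S σ).comp
        ((sub k (c * t) : S σ →ₐ[ℂ] S σ) : S σ →+* S σ)).comp
          (Polynomial.evalRingHom (C t : S σ)) := by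
    refine Polynomial.ringHom_ext (fun f => ?_) ?_
    · simp only [RingHom.comp_apply, RingHom.coe_coe, A_C, Polynomial.coe_evalRingHom,
        Polynomial.eval_C]
      exact eval_psi h k c r t f
    · simp only [RingHom.comp_apply, RingHom.coe_coe, A_X, Polynomial.coe_evalRingHom,
        Polynomial.eval_X]
      rw [sub_C, sub_C]
  exact congrArg (fun G : Polynomial (S σ) →+* S σ => G F) key

theorem A_op (g h k : σ → Option σ) (ε r : ℂ) (hn : NormRel g h k ε) (f : S σ) :
    A h k (ε * r) r (op g f) = op g (sub h r f) := by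
  have h2 : ∀ t : ℂ, Polynomial.eval (C t) (A h k (ε * r) r (op g f)) =
      Polynomial.eval (C t) (op g (sub h r f)) := by
    intro t
    rw [eval_A, eval_op, eval_op]
    have h1 : sub g t (sub h r f) = sub h r (sub k (ε * t * r) (sub g t f)) :=
      congrArg (fun F : S σ →ₐ[ℂ] S σ => F f) (hn t r)
    have e : ε * r * t = ε * t * r := by ring
    rw [e]
    exact h1.symm
  refine Polynomial.eq_of_infinite_eval_eq _ _ ?_
  refine Set.Infinite.mono ?_ (Set.infinite_range_of_injective (C_injective σ ℂ))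
  intro x hx
  obtain ⟨t, ht⟩ := hx
  rw [← ht]
  exact h2 t

/-- polynomials with coefficients in `P` -/
theorem A_mem (h k : σ → Option σ) (c r : ℂ) (P : Ideal (S σ)) (hh : Stab h P) (hk : Stab k P)
    (F : Polynomial (S σ)) (hF : ∀ n, F.coeff n ∈ P) (n : ℕ) : (A h k c r F).coeff n ∈ P := by
  have hpsi : ∀ f ∈ P, ∀ n, (psi h k c r f).coeff n ∈ P := by
    intro f hf n
    unfold psi
    rw [RingHom.comp_apply, RingHom.comp_apply, RingHom.coe_coe, Polynomial.coe_mapRingHom,
      Polynomial.coe_compRingHom_apply, Polynomial.coeff_map, Polynomial.comp_C_mul_X_coeff]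
    refine sub_mem h P hh r _ ?_
    exact Ideal.mul_mem_right _ _ (hk f hf n)
  have hmem : ∀ G : Polynomial (S σ), (∀ n, G.coeff n ∈ P) ↔
      G ∈ Ideal.map (Polynomial.C : S σ →+* Polynomial (S σ)) P :=
    fun G => Ideal.mem_map_C_iff.symm
  refine (hmem _).2 ?_ n
  have e1 : A h k c r F = ∑ i ∈ Finset.range (F.natDegree + 1), psi h k c r (F.coeff i) *
      Polynomial.X ^ i := by
    conv_lhs => rw [F.as_sum_range_C_mul_X_pow]
    rw [map_sum]
    refine Finset.sum_congr rfl fun i _ => ?_
    rw [map_mul, map_pow, A_X, A_C]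
  rw [e1]
  refine Ideal.sum_mem _ fun i _ => Ideal.mul_mem_right _ _ ?_
  exact (hmem _).1 (hpsi _ (hF i))

theorem opm_apply (g : σ → Option σ) (P : Ideal (S σ)) (f : S σ) :
    opm g P f = Polynomial.mapRingHom (Ideal.Quotient.mk P) (op g f) := rfl

/-- a relation, lifted -/
theorem rel_iff (g : σ → Option σ) (P : Ideal (S σ)) (N : ℕ) (f : S σ) (h : ℕ → S σ) :
    Polynomial.X ^ N * opm g P f = ∑ j ∈ Finset.range N, Polynomial.X ^ j * opm g P (h j) ↔
    ∀ n, (Polynomial.X ^ N * op g f -
      ∑ j ∈ Finset.range N, Polynomial.X ^ j * op g (h j)).coeff n ∈ P := by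
  have e1 : Polynomial.mapRingHom (Ideal.Quotient.mk P) (Polynomial.X ^ N * op g f -
      ∑ j ∈ Finset.range N, Polynomial.X ^ j * op g (h j)) =
      Polynomial.X ^ N * opm g P f -
        ∑ j ∈ Finset.range N, Polynomial.X ^ j * opm g P (h j) := by
    rw [map_sub, map_mul, map_pow, map_sum]
    simp only [map_mul, map_pow, opm_apply, Polynomial.coe_mapRingHom, Polynomial.map_X]
  rw [← sub_eq_zero, ← e1, Polynomial.ext_iff]
  refine forall_congr' fun n => ?_
  rw [Polynomial.coe_mapRingHom, Polynomial.coeff_map, Polynomial.coeff_zero]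
  exact Ideal.Quotient.eq_zero_iff_mem

end NJ

open NJ in
theorem t_NJ : S_NJ := by
  intro σ _ _ g h k ε P _ _ _ hn hh hk N r f hf
  obtain ⟨v, hv⟩ := hf
  refine ⟨fun j => sub h r (v j), ?_⟩
  rw [rel_iff] at hv ⊢
  have e1 : A h k (ε * r) r (Polynomial.X ^ N * op g f -
      ∑ j ∈ Finset.range N, Polynomial.X ^ j * op g (v j)) =
      Polynomial.X ^ N * op g (sub h r f) -
        ∑ j ∈ Finset.range N, Polynomial.X ^ j * op g (sub h r (v j)) := by
    rw [map_sub, map_mul, map_pow, map_sum, A_X, A_op g h k ε r hn]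
    simp only [map_mul, map_pow, A_X, A_op g h k ε r hn]
  rw [← e1]
  exact A_mem h k (ε * r) r P hh hk _ hv

end Pool.Agent.KIR.S2
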