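import Pool.Agent.KIR.S2.Stm

/-!
# KIR, section S2, piece PZF: the ideal `PZ` and the chains `JI`, `II`
-/

set_option autoImplicit false

namespace Pool.Agent.KIR.S2

open MvPolynomial Filter Topology Pool.Agent.KIR

namespace PZF

variable {σ : Type}

theorem opm_apply (g : σ → Option σ) (P : Ideal (S σ)) (f : S σ) :
    opm g P f = (op g f).map (Ideal.Quotient.mk P) := rfl

theorem mem_PZ (g : σ → Option σ) (P : Ideal (S σ)) (f : S σ) :
    f ∈ PZ g P ↔ ∀ k, (op g f).coeff k ∈ P := by
  unfold PZ
  rw [RingHom.mem_ker, opm_apply, Polynomial.ext_iff]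
  refine forall_congr' fun k => ?_
  rw [Polynomial.coeff_map, Polynomial.coeff_zero, Ideal.Quotient.eq_zero_iff_mem]

theorem coeff_zero_op (g : σ → Option σ) (f : S σ) : (op g f).coeff 0 = f := by
  have h1 : (Polynomial.constantCoeff : Polynomial (S σ) →+* S σ).comp
      ((op g : S σ →ₐ[ℂ] Polynomial (S σ)) : S σ →+* Polynomial (S σ)) = RingHom.id (S σ) := by
    apply MvPolynomial.ringHom_ext
    · intro r
      have h2 : op g (C r) = Polynomial.C (C r) := by
        have := (op g).commutes r
        rw [MvPolynomial.algebraMap_eq] at this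
        rw [this]
        rfl
      show Polynomial.constantCoeff (op g (C r)) = C r
      rw [h2]
      simp
    · intro s
      show Polynomial.constantCoeff (op g (X s)) = X s
      unfold op
      rw [aeval_X]
      simp
  exact congrArg (fun φ : S σ →+* S σ => φ f) h1

end PZF

open PZF in
theorem t_PZF : S_PZF := by
  intro σ _ _ g P
  have hle : PZ g P ≤ P := by
    intro f hf
    have h1 := (mem_PZ g P f).1 hf 0
    rwa [coeff_zero_op] at h1
  refine ⟨mem_PZ g P, ?_, hle, ?_, ?_, ?_, ?_, ?_⟩
  · intro hP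
    unfold PZ
    exact RingHom.ker_isPrime _
  · intro h f hf k
    rw [← h] at hf
    exact (mem_PZ g P f).1 hf k
  · ext f
    rw [mem_JI]
    unfold InJ PZ
    rw [RingHom.mem_ker]
    simp
  · ext f
    rw [mem_II]
    unfold PZ
    rw [RingHom.mem_ker]
    simp
  · apply monotone_nat_of_le_succ
    intro i f hf
    rw [mem_JI] at hf ⊢
    obtain ⟨h, hh⟩ := hf
    obtain ⟨h', hh'⟩ : ∃ h' : ℕ → S σ, h' = fun j => if j = 0 then 0 else h (j - 1) := ⟨_, rfl⟩
    have e0 : h' 0 = 0 := by rw [hh']; rfl
    have e1 : ∀ j, h' (j + 1) = h j := fun j => by rw [hh']; simp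
    refine ⟨h', ?_⟩
    have e : Polynomial.X ^ (i + 1) * opm g P f = Polynomial.X * (Polynomial.X ^ i * opm g P f) := by
      ring
    rw [e, hh, Finset.mul_sum, Finset.sum_range_succ', e0, map_zero, mul_zero, add_zero]
    refine Finset.sum_congr rfl fun j _ => ?_
    rw [e1]
    ring
  · apply monotone_nat_of_le_succ
    intro i f hf
    rw [mem_II] at hf ⊢
    obtain ⟨h, hh⟩ := hf
    refine ⟨fun j => if j < i then h j else 0, ?_⟩
    rw [Finset.sum_range_succ, hh]
    simp only [lt_irrefl, if_false, map_zero, mul_zero, add_zero]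
    refine Finset.sum_congr rfl fun j hj => ?_
    rw [if_pos (Finset.mem_range.1 hj)]

end Pool.Agent.KIR.S2
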