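import Pool.Agent.KIR.S2.Stm

/-!
# KIR, section S2, piece SJ (helper55): `J_N` is stable under its own group
-/

set_option autoImplicit false

namespace Pool.Agent.KIR.S2

open MvPolynomial Pool.Agent.KIR

namespace SJ

variable {σ : Type}

theorem opm_C (g : σ → Option σ) (P : Ideal (S σ)) (c : ℂ) :
    opm g P (C c) = Polynomial.C (Ideal.Quotient.mk P (C c)) := by
  have h : op g (C c) = Polynomial.C (C c) := by
    have h1 : (C c : S σ) = algebraMap ℂ (S σ) c := rfl
    rw [h1, AlgHom.commutes]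
    rfl
  show Polynomial.mapRingHom (Ideal.Quotient.mk P) (op g (C c)) = _
  rw [h]
  simp

theorem opm_X (g : σ → Option σ) (P : Ideal (S σ)) (s : σ) :
    opm g P (X s) = Polynomial.C (Ideal.Quotient.mk P (X s)) +
      Polynomial.X * ((g s).elim 0 (fun s' => Polynomial.C (Ideal.Quotient.mk P (X s')))) := by
  have h : op g (X s) = Polynomial.C (X s) +
      Polynomial.X * ((g s).elim 0 (fun s' => Polynomial.C (X s'))) := by
    unfold op
    rw [aeval_X]
  show Polynomial.mapRingHom (Ideal.Quotient.mk P) (op g (X s)) = _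
  rw [h]
  rcases g s with _ | s'
  · simp
  · simp

/-- translation by `r` -/
noncomputable def tr (P : Ideal (S σ)) (r : ℂ) : Polynomial (S σ ⧸ P) →+* Polynomial (S σ ⧸ P) :=
  Polynomial.compRingHom (Polynomial.X + Polynomial.C (Ideal.Quotient.mk P (C r)))

theorem tr_C (P : Ideal (S σ)) (r : ℂ) (x : S σ ⧸ P) : tr P r (Polynomial.C x) = Polynomial.C x := by
  simp [tr]

theorem tr_X (P : Ideal (S σ)) (r : ℂ) : tr P r Polynomial.X =
    Polynomial.X + Polynomial.C (Ideal.Quotient.mk P (C r)) := by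
  simp [tr]

theorem tr_opm (g : σ → Option σ) (P : Ideal (S σ)) (hg : Flat g) (r : ℂ) (f : S σ) :
    tr P r (opm g P f) = opm g P (sub g r f) := by
  have key : (tr P r).comp (opm g P) = (opm g P).comp ((sub g r : S σ →ₐ[ℂ] S σ) : S σ →+* S σ) := by
    refine MvPolynomial.ringHom_ext (fun c => ?_) (fun s => ?_)
    · rw [RingHom.comp_apply, RingHom.comp_apply, opm_C, tr_C]
      have h1 : (C c : S σ) = algebraMap ℂ (S σ) c := rfl
      rw [h1, RingHom.coe_coe, AlgHom.commutes, ← h1, opm_C]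
    · rw [RingHom.comp_apply, RingHom.comp_apply, opm_X, RingHom.coe_coe]
      have h2 : sub g r (X s) = X s + C r * ((g s).elim 0 (fun s' => X s')) := by
        unfold sub
        rw [aeval_X]
      rw [h2, map_add, map_add, map_mul, map_mul, tr_C, tr_X, opm_X, opm_C]
      have hfl := hg s
      rcases hgs : g s with _ | s'
      · simp
      · have h3 := hfl s' hgs
        simp only [Option.elim_some, tr_C, opm_X, h3, Option.elim_none, mul_zero, add_zero]
        ring
  exact congrArg (fun F : S σ →+* Polynomial (S σ ⧸ P) => F f) key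

/-- the additive group of the sums `∑_{j < N} T ^ j φ(h j)` -/
noncomputable def M (g : σ → Option σ) (P : Ideal (S σ)) (N : ℕ) :
    AddSubgroup (Polynomial (S σ ⧸ P)) where
  carrier := {F | ∃ h : ℕ → S σ, F = ∑ j ∈ Finset.range N, Polynomial.X ^ j * opm g P (h j)}
  add_mem' := by
    rintro F F' ⟨h, rfl⟩ ⟨h', rfl⟩
    refine ⟨fun j => h j + h' j, ?_⟩
    simp only [map_add, mul_add, Finset.sum_add_distrib]
  zero_mem' := ⟨fun _ => 0, by simp⟩
  neg_mem' := by
    rintro F ⟨h, rfl⟩
    refine ⟨fun j => - h j, ?_⟩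
    simp only [map_neg, mul_neg, Finset.sum_neg_distrib]

theorem mem_M {g : σ → Option σ} {P : Ideal (S σ)} {N : ℕ} {F : Polynomial (S σ ⧸ P)} :
    F ∈ M g P N ↔ ∃ h : ℕ → S σ, F = ∑ j ∈ Finset.range N, Polynomial.X ^ j * opm g P (h j) :=
  Iff.rfl

theorem one_mem_M (g : σ → Option σ) (P : Ideal (S σ)) (N j : ℕ) (hj : j < N) (u : S σ) :
    Polynomial.X ^ j * opm g P u ∈ M g P N := by
  classical
  refine mem_M.2 ⟨fun i => if i = j then u else 0, ?_⟩
  rw [Finset.sum_eq_single j]
  · simp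
  · intro i _ hi
    simp [hi]
  · intro h
    exact absurd (Finset.mem_range.2 hj) h

theorem exp (P : Ideal (S σ)) (r : ℂ) (j : ℕ) :
    (Polynomial.X + Polynomial.C (Ideal.Quotient.mk P (C r))) ^ j =
      ∑ m ∈ Finset.range (j + 1), Polynomial.X ^ m *
        (Polynomial.C (Ideal.Quotient.mk P (C r))) ^ (j - m) *
        ((j.choose m : ℕ) : Polynomial (S σ ⧸ P)) :=
  (Polynomial.commute_X (Polynomial.C (Ideal.Quotient.mk P (C r)))).add_pow j

theorem term (g : σ → Option σ) (P : Ideal (S σ)) (r : ℂ) (m j : ℕ) (u : S σ) :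
    Polynomial.X ^ m * (Polynomial.C (Ideal.Quotient.mk P (C r))) ^ (j - m) * ((j.choose m : ℕ) :
      Polynomial (S σ ⧸ P)) * opm g P u =
    Polynomial.X ^ m * opm g P ((C r) ^ (j - m) * ((j.choose m : ℕ) : S σ) * u) := by
  rw [map_mul, map_mul, map_pow, map_natCast, opm_C]
  ring

theorem shift_mem (g : σ → Option σ) (P : Ideal (S σ)) (r : ℂ) (N j : ℕ) (hj : j < N) (u : S σ) :
    (Polynomial.X + Polynomial.C (Ideal.Quotient.mk P (C r))) ^ j * opm g P u ∈ M g P N := by
  rw [exp, Finset.sum_mul]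
  refine AddSubgroup.sum_mem _ fun m hm => ?_
  rw [Finset.mem_range] at hm
  rw [term]
  exact one_mem_M g P N m (by omega) _

end SJ

open SJ in
theorem t_SJ : S_SJ := by
  intro σ _ _ g P hg N r f hf
  obtain ⟨h, hh⟩ := hf
  have e1 := congrArg (tr P r) hh
  rw [map_mul, map_pow, tr_X, tr_opm g P hg, map_sum] at e1
  simp only [map_mul, map_pow, tr_X, tr_opm g P hg] at e1
  have h2 : (Polynomial.X + Polynomial.C (Ideal.Quotient.mk P (C r))) ^ N * opm g P (sub g r f) ∈
      M g P N := by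
    rw [e1]
    exact AddSubgroup.sum_mem _ fun j hj => shift_mem g P r N j (Finset.mem_range.1 hj) _
  rw [exp, Finset.sum_mul, Finset.sum_range_succ] at h2
  have h3 : ∑ m ∈ Finset.range N, Polynomial.X ^ m *
      (Polynomial.C (Ideal.Quotient.mk P (C r))) ^ (N - m) * ((N.choose m : ℕ) :
      Polynomial (S σ ⧸ P)) * opm g P (sub g r f) ∈ M g P N := by
    refine AddSubgroup.sum_mem _ fun m hm => ?_
    rw [term]
    exact one_mem_M g P N m (Finset.mem_range.1 hm) _
  have h4 := (AddSubgroup.add_mem_cancel_left _ h3).1 h2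
  rw [Nat.sub_self, pow_zero, mul_one, Nat.choose_self, Nat.cast_one, mul_one] at h4
  exact mem_M.1 h4

end Pool.Agent.KIR.S2
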