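import Pool.Agent.KIR.S2.Stm
/-!
# KIR, section S2, piece STAR: the formula (*) (helper69)
-/
set_option autoImplicit false
namespace Pool.Agent.KIR.S2
open MvPolynomial Filter Topology Pool.Agent.KIR

/-- PIECE STAR, from the pieces TGN, PZF and HSI. -/
theorem t_STAR (hTGN : S_TGN) (hPZF : S_PZF) (hHSI : S_HSI) : S_STAR := by
  intro σ ρ _ _ _ W g α P N hW hT hJ hI p hp hα q hq0 hq1
  obtain ⟨a1, -, a3, a4⟩ := hTGN σ ρ W p hp
  obtain ⟨-, -, -, -, b5, b6, -, -⟩ := hPZF σ g P
  have hτ : (((pair α p).toNat : ℕ) : ℤ) = pair α p := Int.toNat_of_nonneg hα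
  have hg : ∀ s s', g s = some s' → wt W p s = wt W p s' + (pair α p).toNat := by
    intro s s' h
    have e1 : pair (W s) p = pair (W s') p + pair α p := by
      rw [hW s s' h]
      unfold pair
      rw [← Finset.sum_add_distrib]
      refine Finset.sum_congr rfl fun i _ => ?_
      rw [Pi.add_apply, add_mul]
    have e2 : ((wt W p s : ℕ) : ℤ) = ((wt W p s' + (pair α p).toNat : ℕ) : ℤ) := by
      rw [Nat.cast_add, a4 s, a4 s', hτ, e1]
    exact_mod_cast e2
  have hTM : TGM (fun s => ((wt W p s : ℕ) : ℤ)) P := by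
    have e : (fun s => ((wt W p s : ℕ) : ℤ)) = fun s => pair (W s) p := funext a4
    rw [e]
    exact a1 P hT
  have key : ∀ M : ℕ, Hs (wt W p) (II g P M) q =
      q ^ (M * (pair α p).toNat) * Hs (wt W p) (JI g P M) q +
        (1 - q ^ (pair α p).toNat) *
          ∑ i ∈ Finset.range M, q ^ (i * (pair α p).toNat) * Hs (wt W p) (JI g P i) q := by
    intro M
    induction M with
    | zero => simp [b5, b6]
    | succ i ih =>
      have h := hHSI σ (wt W p) g (pair α p).toNat P a3 hg hTM i q hq0 hq1
      rw [Finset.sum_range_succ]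
      have e : q ^ ((i + 1) * (pair α p).toNat) =
          q ^ (i * (pair α p).toNat) * q ^ (pair α p).toNat := by
        rw [← pow_add]
        congr 1
        ring
      rw [e] at h ⊢
      rw [ih] at h
      linear_combination -h
  have := key N
  rwa [hJ, hI] at this

end Pool.Agent.KIR.S2
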