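import Pool.Agent.KIR.S2.Stm

/-! # KIR, section S2, piece SUM (helper78) -/
set_option autoImplicit false
namespace Pool.Agent.KIR.S2
open MvPolynomial Filter Topology Pool.Agent.KIR

theorem t_SUM (hHFD : S_HFD) : S_SUM := by
  intro σ _ _ w hw I q hq0 hq1
  have hb : ∀ a : ℕ, (hf w I a : ℝ) ≤ ((a : ℝ) + 1) ^ Fintype.card σ := by
    intro a
    obtain ⟨-, h2, h3⟩ := hHFD σ w hw a
    have h4 := h2 I
    have h5 : hf w I a ≤ (a + 1) ^ Fintype.card σ := by omega
    exact_mod_cast h5
  constructor
  · have hs : Summable (fun a : ℕ => ((a : ℝ) + 1) ^ Fintype.card σ * q ^ a) := by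
      have h1 := summable_pow_mul_geometric_of_norm_lt_one (R := ℝ) (Fintype.card σ) (r := q)
        (by rw [Real.norm_eq_abs, abs_of_pos hq0]; exact hq1)
      have h2 := (summable_nat_add_iff 1).2 h1
      refine (h2.mul_left q⁻¹).congr fun a => ?_
      rw [pow_succ]
      push_cast
      field_simp
    refine Summable.of_nonneg_of_le (fun a => by positivity) (fun a => ?_) hs
    exact mul_le_mul_of_nonneg_right (hb a) (by positivity)
  · unfold Hs
    exact tsum_nonneg fun a => by positivity

end Pool.Agent.KIR.S2
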