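import Pool.Agent.KIR.S2.Stm

/-!
# KIR, section S2, piece TGJ (helper74): the ideals `PZ`, `JI`, `II`, `JJ` are graded
-/

set_option autoImplicit false

namespace Pool.Agent.KIR.S2

open MvPolynomial Filter Topology Pool.Agent.KIR

theorem t_TGJ (hHG : S_HG) (hPZF : S_PZF) (hCH : S_CH) : S_TGJ := by
  intro σ M _ _ _ W g α P hW hF hP
  have hJ : ∀ i, TGM W (JI g P i) := by
    intro i f hf d
    rw [mem_JI] at hf ⊢
    obtain ⟨h, hh⟩ := hf
    have h1 : ∑ x ∈ Finset.range (i + 1), Polynomial.X ^ x *
        opm g P (if x = i then f else - h x) = 0 := by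
      rw [Finset.sum_range_succ, if_pos rfl, hh, ← Finset.sum_add_distrib]
      refine Finset.sum_eq_zero fun x hx => ?_
      rw [if_neg (ne_of_lt (Finset.mem_range.1 hx)), map_neg]
      ring
    have h2 := hHG σ M W g α P hW hP ℕ (Finset.range (i + 1)) (fun x => x)
      (fun x => if x = i then f else - h x) h1 (d + i • α)
    rw [Finset.sum_range_succ] at h2
    simp only [if_true, add_sub_cancel_right] at h2
    refine ⟨fun j => weightedHomogeneousComponent W (d + i • α - j • α) (h j), ?_⟩
    have h3 : ∑ x ∈ Finset.range i, Polynomial.X ^ x * opm g P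
        (weightedHomogeneousComponent W (d + i • α - x • α) (if x = i then f else - h x)) =
        - ∑ x ∈ Finset.range i, Polynomial.X ^ x * opm g P
        (weightedHomogeneousComponent W (d + i • α - x • α) (h x)) := by
      rw [← Finset.sum_neg_distrib]
      refine Finset.sum_congr rfl fun x hx => ?_
      rw [if_neg (ne_of_lt (Finset.mem_range.1 hx)), map_neg, map_neg]
      ring
    rw [h3] at h2
    linear_combination h2
  have hI : ∀ i, TGM W (II g P i) := by
    intro i f hf d
    rw [mem_II] at hf ⊢
    obtain ⟨h, hh⟩ := hf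
    have h1 : ∑ x ∈ Finset.range (i + 1), Polynomial.X ^ x *
        opm g P (if x = 0 then f else - h (x - 1)) = 0 := by
      rw [Finset.sum_range_succ', if_pos rfl, pow_zero, one_mul, hh, ← Finset.sum_add_distrib]
      refine Finset.sum_eq_zero fun x hx => ?_
      rw [if_neg (Nat.succ_ne_zero x), map_neg, Nat.add_sub_cancel]
      ring
    have h2 := hHG σ M W g α P hW hP ℕ (Finset.range (i + 1)) (fun x => x)
      (fun x => if x = 0 then f else - h (x - 1)) h1 d
    rw [Finset.sum_range_succ'] at h2
    simp only [if_true, pow_zero, one_mul, zero_smul, sub_zero] at h2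
    refine ⟨fun j => weightedHomogeneousComponent W (d - (j + 1) • α) (h j), ?_⟩
    have h3 : ∑ x ∈ Finset.range i, Polynomial.X ^ (x + 1) * opm g P
        (weightedHomogeneousComponent W (d - (x + 1) • α)
          (if x + 1 = 0 then f else - h (x + 1 - 1))) =
        - ∑ x ∈ Finset.range i, Polynomial.X ^ (x + 1) * opm g P
        (weightedHomogeneousComponent W (d - (x + 1) • α) (h x)) := by
      rw [← Finset.sum_neg_distrib]
      refine Finset.sum_congr rfl fun x hx => ?_
      rw [if_neg (Nat.succ_ne_zero x), map_neg, map_neg, Nat.add_sub_cancel]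
      ring
    rw [h3] at h2
    linear_combination h2
  obtain ⟨-, -, -, -, h0, -, -, -⟩ := hPZF σ g P
  obtain ⟨N, -, hN, -⟩ := hCH σ g P hF
  refine ⟨?_, hJ, hI, ?_⟩
  · rw [← h0]
    exact hJ 0
  · rw [← hN N le_rfl]
    exact hJ N

end Pool.Agent.KIR.S2
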