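import Pool.Agent.KIR.S2.Stm
/-!
# KIR, section S2, piece TGN: from the torus grading to the gradings of a parameter vector
-/
set_option autoImplicit false
namespace Pool.Agent.KIR.S2
open MvPolynomial Filter Topology Pool.Agent.KIR

namespace TGN

variable {σ ρ : Type}

/-- the pairing as an additive map -/
def ph [Fintype ρ] (p : ρ → ℤ) : (ρ → ℤ) →+ ℤ where
  toFun α := pair α p
  map_zero' := by simp [pair]
  map_add' a b := by simp [pair, add_mul, Finset.sum_add_distrib]

theorem weight_pair [Fintype ρ] (W : σ → ρ → ℤ) (p : ρ → ℤ) (m : σ →₀ ℕ) :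
    Finsupp.weight (fun s => pair (W s) p) m = pair (Finsupp.weight W m) p := by
  change _ = ph p (Finsupp.weight W m)
  rw [Finsupp.weight_apply, Finsupp.weight_apply, map_finsuppSum]
  refine Finsupp.sum_congr fun s _ => ?_
  rw [map_nsmul]
  rfl

theorem weight_wt [Fintype ρ] (W : σ → ρ → ℤ) (p : ρ → ℤ)
    (h : ∀ s, ((wt W p s : ℕ) : ℤ) = pair (W s) p) (m : σ →₀ ℕ) :
    ((Finsupp.weight (wt W p) m : ℕ) : ℤ) = Finsupp.weight (fun s => pair (W s) p) m := by
  change Nat.castAddMonoidHom ℤ (Finsupp.weight (wt W p) m) = _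
  rw [Finsupp.weight_apply, Finsupp.weight_apply, map_finsuppSum]
  refine Finsupp.sum_congr fun s _ => ?_
  rw [map_nsmul]
  change m s • ((wt W p s : ℕ) : ℤ) = _
  rw [h s]

theorem part1 [Fintype ρ] (W : σ → ρ → ℤ) (p : ρ → ℤ) (I : Ideal (S σ)) (hI : TG W I) :
    TGM (fun s => pair (W s) p) I := by
  classical
  intro f hf e
  have h : weightedHomogeneousComponent (fun s => pair (W s) p) e f =
      ∑ d ∈ (f.support.image (Finsupp.weight W)).filter (fun d => pair d p = e),
        weightedHomogeneousComponent W d f := by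
    ext m
    rw [coeff_weightedHomogeneousComponent, coeff_sum]
    simp only [coeff_weightedHomogeneousComponent]
    rw [weight_pair]
    by_cases hm : coeff m f = 0
    · simp [hm]
    · rw [Finset.sum_ite_eq]
      refine if_congr ?_ rfl rfl
      rw [Finset.mem_filter, Finset.mem_image]
      constructor
      · intro h
        exact ⟨⟨m, mem_support_iff.2 hm, rfl⟩, h⟩
      · exact fun h => h.2
  rw [h]
  exact Ideal.sum_mem _ fun d _ => hI f hf d

end TGN

open TGN in
theorem t_TGN : S_TGN := by
  classical
  intro σ ρ _ _ _ W p hp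
  have h4 : ∀ s, ((wt W p s : ℕ) : ℤ) = pair (W s) p := fun s => Int.toNat_of_nonneg (hp s).le
  refine ⟨part1 W p, ?_, ?_, h4⟩
  · intro I hI f hf a
    have h : weightedHomogeneousComponent (wt W p) a f =
        weightedHomogeneousComponent (fun s => pair (W s) p) (a : ℤ) f := by
      ext m
      rw [coeff_weightedHomogeneousComponent, coeff_weightedHomogeneousComponent,
        ← weight_wt W p h4]
      refine if_congr ?_ rfl rfl
      exact Nat.cast_inj.symm
    rw [h]
    exact part1 W p I hI f hf a
  · intro s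
    have h1 := hp s
    rw [← h4 s] at h1
    exact_mod_cast h1

end Pool.Agent.KIR.S2
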