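import Pool.Agent.KIR.S2.Stm

set_option autoImplicit false
namespace Pool.Agent.KIR.S2
open MvPolynomial Filter Topology Pool.Agent.KIR

theorem t_VDM : S_VDM := by
  intro σ _ _ I F
  constructor
  · intro h t
    rw [Polynomial.eval_eq_sum_range]
    exact Ideal.sum_mem _ fun i _ => Ideal.mul_mem_right _ _ (h i)
  · intro h k
    rw [← Ideal.Quotient.eq_zero_iff_mem]
    rw [← Module.forall_dual_apply_eq_zero_iff ℂ]
    intro l
    -- the polynomial with coefficients `l (F.coeff i)`
    set p : Polynomial ℂ := ∑ i ∈ Finset.range (F.natDegree + 1),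
      Polynomial.C (l (Ideal.Quotient.mk I (F.coeff i))) * Polynomial.X ^ i with hp
    have hp0 : p = 0 := by
      apply Polynomial.funext
      intro t
      rw [Polynomial.eval_zero, hp, Polynomial.eval_finset_sum]
      have h1 : Ideal.Quotient.mk I (F.eval (C t)) = 0 := Ideal.Quotient.eq_zero_iff_mem.2 (h t)
      rw [Polynomial.eval_eq_sum_range, map_sum] at h1
      have h2 := congrArg l h1
      rw [map_sum, map_zero] at h2
      rw [← h2]
      refine Finset.sum_congr rfl fun i _ => ?_
      rw [Polynomial.eval_mul, Polynomial.eval_C, Polynomial.eval_pow, Polynomial.eval_X]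
      have h3 : Ideal.Quotient.mk I (F.coeff i * C t ^ i) = (t ^ i) • Ideal.Quotient.mk I (F.coeff i) := by
        rw [← C_pow, mul_comm, ← smul_eq_C_mul]
        rfl
      rw [h3, map_smul, smul_eq_mul, mul_comm]
    have h4 := congrArg (fun q => q.coeff k) hp0
    simp only [hp, Polynomial.finset_sum_coeff, Polynomial.coeff_C_mul_X_pow, Polynomial.coeff_zero] at h4
    by_cases hk : k ∈ Finset.range (F.natDegree + 1)
    · rw [Finset.sum_eq_single k] at h4
      · simpa using h4
      · intro b _ hb
        rw [if_neg (Ne.symm hb)]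
      · intro hk'
        exact absurd hk hk'
    · rw [Finset.mem_range, not_lt] at hk
      rw [Polynomial.coeff_eq_zero_of_natDegree_lt (by omega), map_zero, map_zero]

end Pool.Agent.KIR.S2
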