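import Pool.Agent.KIR.S2.Stm
/-!
# KIR, section S2, piece ZN (helper33)
-/
set_option autoImplicit false
set_option linter.all false
namespace Pool.Agent.KIR.S2
open MvPolynomial Filter Topology Pool.Agent.KIR

theorem t_ZN : S_ZN := by
  intro σ _ _ w f
  have hw : ∀ m : σ →₀ ℕ, Finsupp.weight (fun s => (w s : ℤ)) m = ((Finsupp.weight w m : ℕ) : ℤ) := by
    intro m
    rw [Finsupp.weight_apply, Finsupp.weight_apply, Finsupp.sum, Finsupp.sum]
    push_cast
    exact Finset.sum_congr rfl fun i _ => by simp [nsmul_eq_mul]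
  refine ⟨fun a => ?_, fun e he => ?_⟩
  · ext m
    rw [coeff_weightedHomogeneousComponent, coeff_weightedHomogeneousComponent, hw]
    by_cases h : Finsupp.weight w m = a
    · rw [if_pos h, if_pos (by exact_mod_cast h)]
    · rw [if_neg h, if_neg (by exact_mod_cast h)]
  · ext m
    rw [coeff_weightedHomogeneousComponent, hw, if_neg (by omega), coeff_zero]

end Pool.Agent.KIR.S2
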