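import Pool.Agent.KIR.S2.Main
import Pool.Agent.KIR.S2.GRP
import Pool.Agent.KIR.S2.ZN
import Pool.Agent.KIR.S2.VDM
import Pool.Agent.KIR.S2.PZF
import Pool.Agent.KIR.S2.CH
import Pool.Agent.KIR.S2.HG
import Pool.Agent.KIR.S2.HOM
import Pool.Agent.KIR.S2.TGJ
import Pool.Agent.KIR.S2.TGN
import Pool.Agent.KIR.S2.HFD6
import Pool.Agent.KIR.S2.DIM
import Pool.Agent.KIR.S2.SUM
import Pool.Agent.KIR.S2.HSI6
import Pool.Agent.KIR.S2.STAR
import Pool.Agent.KIR.S2.LIM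
import Pool.Agent.KIR.S2.SJ
import Pool.Agent.KIR.S2.NJ
import Pool.Agent.KIR.S1a.Final
/-!
# KIR, section S2: final theorems
-/
set_option autoImplicit false
namespace Pool.Agent.KIR.S2
open Pool.Agent.KIR

theorem s_CH : S_CH := t_CH t_PZF t_GRP

theorem s_HG : S_HG := t_HG t_HOM

theorem s_TGJ : S_TGJ := t_TGJ s_HG t_PZF s_CH

theorem s_SUM : S_SUM := t_SUM t_HFD'

theorem s_DIM : S_DIM := t_DIM s_HG t_ZN t_HFD'

theorem s_HSI : S_HSI := t_HSI' t_HFD' s_DIM s_SUM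

/-- formula (*) -/
theorem s_STAR : S_STAR := t_STAR t_TGN t_PZF s_HSI

theorem s_POLY : S_POLY := t_POLY t_GRP t_VDM

theorem s_NRM : S_NRM := t_NRM t_GRP t_VDM t_PZF t_NJ

/-- the degeneration formula -/
theorem s_DEG : S_DEG :=
  t_DEG t_LVL t_STRICT t_GRP t_VDM t_PZF s_CH s_TGJ s_STAR t_LIM t_SJ

end Pool.Agent.KIR.S2
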