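import Pool.Agent.KIR.S2.Stm
/-!
# KIR, section S2: `S_POLY`, `S_NRM` and the assembly of `S_DEG` from the pieces
-/
set_option autoImplicit false
namespace Pool.Agent.KIR.S2
open MvPolynomial Filter Topology Pool.Agent.KIR

theorem t_POLY (h1 : S_GRP) (h2 : S_VDM) : S_POLY := by
  intro σ _ _ g I
  obtain ⟨e1, -⟩ := h1 σ g
  constructor
  · intro h t f hf
    have := (h2 σ I (op g f)).1 (h f hf) t
    rwa [e1] at this
  · intro h f hf
    refine (h2 σ I (op g f)).2 fun t => ?_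
    rw [e1]
    exact h t f hf

/-- membership in `PZ` by complex numbers `t` -/
theorem mem_PZ_iff (h1 : S_GRP) (h2 : S_VDM) (h3 : S_PZF) {σ : Type} [Fintype σ] [DecidableEq σ]
    (g : σ → Option σ) (P : Ideal (S σ)) (f : S σ) :
    f ∈ PZ g P ↔ ∀ t : ℂ, sub g t f ∈ P := by
  rw [(h3 σ g P).1 f, h2 σ P (op g f)]
  simp only [(h1 σ g).1]

/-- `JJ` is stable under an endomorphism which preserves all the `J_N` -/
theorem JJ_sub {σ : Type} (g : σ → Option σ) (P : Ideal (S σ)) (v : S σ →ₐ[ℂ] S σ)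
    (h : ∀ N f, InJ g P N f → InJ g P N (v f)) : ∀ f ∈ JJ g P, v f ∈ JJ g P := by
  have : JJ g P ≤ (JJ g P).comap v := by
    unfold JJ
    rw [Ideal.span_le]
    rintro f ⟨N, hf⟩
    exact Ideal.subset_span ⟨N, h N f hf⟩
  exact fun f hf => this hf

theorem t_NRM (h1 : S_GRP) (h2 : S_VDM) (h3 : S_PZF) (h4 : S_NJ) : S_NRM := by
  intro σ _ _ g h k ε P hg hh hk hrel hsh hsk
  have hP := t_POLY h1 h2
  constructor
  · rw [hP]
    intro r f hf
    rw [mem_PZ_iff h1 h2 h3] at hf ⊢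
    intro t
    have e := congrArg (fun u : S σ →ₐ[ℂ] S σ => u f) (hrel t r)
    simp only [AlgHom.comp_apply] at e
    rw [e]
    exact (hP σ h P).1 hsh r _ ((hP σ k P).1 hsk _ _ (hf t))
  · rw [hP]
    intro r
    exact JJ_sub g P (sub h r) fun N f hf => h4 σ g h k ε P hg hh hk hrel hsh hsk N r f hf

theorem t_DEG (hL : S_LVL) (hS : S_STRICT) (h1 : S_GRP) (h2 : S_VDM) (h3 : S_PZF) (h4 : S_CH)
    (h5 : S_TGJ) (h6 : S_STAR) (h7 : S_LIM) (h8 : S_SJ) : S_DEG := by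
  classical
  intro σ ρ _ _ _ W g α P hF hW hP hT hns _
  obtain ⟨-, p2, p3, p4, p5, -, p7, -⟩ := h3 σ g P
  obtain ⟨N, hN, hJ, hI⟩ := h4 σ g P hF
  obtain ⟨t1, t2, -, t4⟩ := h5 σ (ρ → ℤ) W g α P hW hF hT
  have hne : PZ g P ≠ P := fun e => hns (p4 e)
  have hPOLY := t_POLY h1 h2
  refine ⟨p2 hP, t1, t4, p3, hne, ?_, ?_, ?_⟩
  · rw [hPOLY]
    intro r f hf
    rw [mem_PZ_iff h1 h2 h3] at hf ⊢
    intro t
    rw [(h1 σ g).2.1 hF]
    exact hf _
  · rw [hPOLY]
    intro r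
    exact JJ_sub g P (sub g r) fun N f hf => h8 σ g P hF N r f hf
  · refine ⟨((Finset.range N).filter fun i => JI g P i = PZ g P).card, ?_, ?_⟩
    · refine Finset.card_pos.2 ⟨0, ?_⟩
      rw [Finset.mem_filter]
      exact ⟨Finset.mem_range.2 hN, p5⟩
    · intro p hp hα c hc
      have hτ : ((pair α p).toNat : ℤ) = pair α p := Int.toNat_of_nonneg hα.le
      have key := h7 hL hS σ ρ W P (PZ g P) (JI g P) N
        ((Finset.range N).filter fun i => JI g P i = PZ g P).card (p2 hP) t1 hT t2 p3 hne p5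
        (fun i => p5 ▸ p7 (Nat.zero_le i)) hN
        ⟨(Finset.range N).filter fun i => JI g P i = PZ g P, rfl, fun i => by
          rw [Finset.mem_filter, Finset.mem_range]⟩ p (pair α p).toNat hp (by omega)
        (fun q hq0 hq1 => by
          rw [hJ N le_rfl]
          exact h6 σ ρ W g α P N hW hT (hJ N le_rfl) (hI N le_rfl) p hp hα.le q hq0 hq1) c hc
      rw [hJ N le_rfl] at key
      obtain ⟨k1, k2, k3, k4⟩ := key
      refine ⟨k1, k2, k3, ?_⟩
      rw [k4]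
      have e : (((pair α p).toNat : ℕ) : ℝ) = ((pair α p : ℤ) : ℝ) := by
        exact_mod_cast congrArg (fun x : ℤ => (x : ℝ)) hτ
      rw [e]

end Pool.Agent.KIR.S2
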