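import Pool.Agent.KIR.S2.Stm
/-!
# KIR, section S2, piece BDD (helper84)

Consequences of `S_LVL`: a bounded `G` has a limit; limits are nonnegative; a vanishing class
gives the next level.
-/
set_option autoImplicit false
namespace Pool.Agent.KIR.S2
open MvPolynomial Filter Topology Pool.Agent.KIR

namespace BDD
variable {σ : Type} [Fintype σ]

theorem Hs_nonneg (w : σ → ℕ) (I : Ideal (S σ)) {q : ℝ} (h0 : 0 < q) : 0 ≤ Hs w I q :=
  tsum_nonneg fun a => mul_nonneg (Nat.cast_nonneg _) (pow_nonneg h0.le _)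

theorem G_nonneg (c : ℕ) (w : σ → ℕ) (I : Ideal (S σ)) {q : ℝ} (h0 : 0 < q) (h1 : q < 1) :
    0 ≤ G c w I q := by
  have h2 : 0 ≤ 1 - q := by linarith
  refine div_nonneg (mul_nonneg (mul_nonneg ?_ (pow_nonneg h2 _)) (Hs_nonneg w I h0))
    (pow_nonneg h2 _)
  exact Finset.prod_nonneg fun s _ => Nat.cast_nonneg _

theorem ev01 : ∀ᶠ q : ℝ in 𝓝[<] (1 : ℝ), 0 < q ∧ q < 1 :=
  Ioo_mem_nhdsLT (a := (0 : ℝ)) (b := 1) one_pos

theorem tendsto_cl {c : ℕ} {w : σ → ℕ} {I : Ideal (S σ)} (h : Has c w I) :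
    Tendsto (G c w I) (𝓝[<] 1) (𝓝 (cl c w I)) := tendsto_nhds_limUnder h

theorem cl_nonneg {c : ℕ} {w : σ → ℕ} {I : Ideal (S σ)} (h : Has c w I) : 0 ≤ cl c w I :=
  ge_of_tendsto (tendsto_cl h) (ev01.mono fun _ hq => G_nonneg c w I hq.1 hq.2)

theorem G_rel (k d : ℕ) (w : σ → ℕ) (I : Ideal (S σ)) {q : ℝ} (h1 : q < 1) :
    G k w I q = G (k + d) w I q * (1 - q) ^ d := by
  have h2 : (1 - q) ≠ 0 := by linarith
  unfold G
  rw [pow_add]
  field_simp

theorem tendsto_one_sub : Tendsto (fun q : ℝ => 1 - q) (𝓝[<] 1) (𝓝 0) := by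
  have h : Tendsto (fun q : ℝ => 1 - q) (𝓝 1) (𝓝 (1 - 1)) :=
    (continuous_const.sub continuous_id).tendsto 1
  rw [sub_self] at h
  exact h.mono_left nhdsWithin_le_nhds

end BDD

open BDD in
theorem t_BDD : S_BDD := by
  intro hL σ ρ _ _ _ W p hp I hI c
  obtain ⟨hl1, hl2⟩ := hL σ ρ W p hp I hI
  refine ⟨?_, ?_, ?_⟩
  · rintro ⟨B, hB⟩
    by_cases ht : I = ⊤
    · exact (hl2 ht c).1
    · obtain ⟨k, hk, hk0, hlt, hgt⟩ := hl1 ht
      rcases lt_trichotomy c k with h | h | h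
      · exact (hlt c h).1
      · rw [h]; exact hk
      · exfalso
        obtain ⟨d, rfl⟩ := Nat.exists_eq_add_of_lt h
        have h3 : Tendsto (fun q : ℝ => B * (1 - q) ^ (d + 1)) (𝓝[<] 1) (𝓝 (B * 0 ^ (d + 1))) :=
          (tendsto_one_sub.pow (d + 1)).const_mul B
        rw [zero_pow (Nat.succ_ne_zero d), mul_zero] at h3
        have h4 : cl k (wt W p) I ≤ 0 := by
          refine le_of_tendsto_of_tendsto (tendsto_cl hk) h3 ?_
          filter_upwards [hB, ev01] with q hq hq1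
          rw [G_rel k (d + 1) (wt W p) I hq1.2]
          refine mul_le_mul_of_nonneg_right ?_ (pow_nonneg (by linarith [hq1.2]) _)
          exact hq
        linarith
  · intro h
    exact ⟨cl_nonneg h, tendsto_cl h⟩
  · intro h h0
    by_cases ht : I = ⊤
    · exact (hl2 ht (c + 1)).1
    · obtain ⟨k, hk, hk0, hlt, hgt⟩ := hl1 ht
      rcases lt_trichotomy c k with h' | h' | h'
      · rcases Nat.lt_or_eq_of_le (Nat.succ_le_of_lt h') with h5 | h5
        · exact (hlt (c + 1) h5).1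
        · rw [show c + 1 = k from h5]; exact hk
      · rw [h'] at h0
        linarith
      · exact absurd h (hgt c h')

end Pool.Agent.KIR.S2
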