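import Pool.Agent.KIR.Defs
/-!
# KIR, section S2: statements of the pieces

Notation of the docstrings: `T = Polynomial.X`, `φ = opm g P : S → (S/P)[T]`, `D_k f = (op g f).coeff k`.
A word `comp_d` is `weightedHomogeneousComponent W d`.
-/
set_option autoImplicit false
namespace Pool.Agent.KIR.S2
open MvPolynomial Filter Topology Pool.Agent.KIR

variable {σ ρ : Type}

/-- graded for weights in any additive monoid (`TG W I` is the case `M = ρ → ℤ`, by `Iff.rfl`) -/
def TGM {M : Type} [AddCommMonoid M] (W : σ → M) (I : Ideal (S σ)) : Prop :=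
  ∀ f ∈ I, ∀ d : M, weightedHomogeneousComponent W d f ∈ I

/-- the ideals `J_i`: `T ^ i φ(f)` is in `∑_{j < i} T ^ j φ(S)` -/
noncomputable def JI (g : σ → Option σ) (P : Ideal (S σ)) (i : ℕ) : Ideal (S σ) where
  carrier := {f | InJ g P i f}
  add_mem' := by
    rintro f f' ⟨h, hh⟩ ⟨h', hh'⟩
    refine ⟨fun j => h j + h' j, ?_⟩
    simp only [map_add, mul_add, Finset.sum_add_distrib, hh, hh']
  zero_mem' := ⟨fun _ => 0, by simp⟩
  smul_mem' := by
    rintro c f ⟨h, hh⟩
    refine ⟨fun j => c * h j, ?_⟩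
    have e : Polynomial.X ^ i * opm g P (c • f) = opm g P c * (Polynomial.X ^ i * opm g P f) := by
      rw [smul_eq_mul, map_mul]
      ring
    rw [e, hh, Finset.mul_sum]
    refine Finset.sum_congr rfl fun j _ => ?_
    rw [map_mul]
    ring

/-- the ideals `I_i`: `φ(f)` is in `∑_{1 ≤ j ≤ i} T ^ j φ(S)` -/
noncomputable def II (g : σ → Option σ) (P : Ideal (S σ)) (i : ℕ) : Ideal (S σ) where
  carrier := {f | ∃ h : ℕ → S σ, opm g P f =
    ∑ j ∈ Finset.range i, Polynomial.X ^ (j + 1) * opm g P (h j)}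
  add_mem' := by
    rintro f f' ⟨h, hh⟩ ⟨h', hh'⟩
    refine ⟨fun j => h j + h' j, ?_⟩
    simp only [map_add, mul_add, Finset.sum_add_distrib, hh, hh']
  zero_mem' := ⟨fun _ => 0, by simp⟩
  smul_mem' := by
    rintro c f ⟨h, hh⟩
    refine ⟨fun j => c * h j, ?_⟩
    rw [smul_eq_mul, map_mul, hh, Finset.mul_sum]
    refine Finset.sum_congr rfl fun j _ => ?_
    rw [map_mul]
    ring

theorem mem_JI {g : σ → Option σ} {P : Ideal (S σ)} {i : ℕ} {f : S σ} :
    f ∈ JI g P i ↔ InJ g P i f := Iff.rfl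

theorem mem_II {g : σ → Option σ} {P : Ideal (S σ)} {i : ℕ} {f : S σ} :
    f ∈ II g P i ↔ ∃ h : ℕ → S σ, opm g P f =
      ∑ j ∈ Finset.range i, Polynomial.X ^ (j + 1) * opm g P (h j) := Iff.rfl

/-- dimension of the part of degree `a` of `I` -/
noncomputable def fr (w : σ → ℕ) (I : Ideal (S σ)) (a : ℕ) : ℕ :=
  Module.finrank ℂ (weightedHomogeneousSubmodule ℂ w a ⊓ I.restrictScalars ℂ :
    Submodule ℂ (S σ))

/-- PIECE HOM (100 lines).  `D_k` lowers the weight by `k α`.

Proof. For `F : S[T]` let `HW d F` say that `F.coeff k` is weighted homogeneous of weight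
`d - k • α` for all `k`. `HW (W s) (op g (X s))`: the coefficients are `X s` for `k = 0` and
`X s'` (if `g s = some s'`, weight `W s' = W s - α`) or `0` for `k = 1`. `HW d F`, `HW d' F'` imply
`HW (d + d') (F * F')` (coefficients of a product) and `HW d` is closed under sums and under
multiplication by constants. So, with `op g (monomial m c) = c * ∏ op g (X s) ^ (m s)`,
`HW (weight W m) (op g (monomial m c))` (induction: `MvPolynomial.induction_on'` or
`Finsupp`/`monomial` induction). For a general `f` both sides of the claim are additive in `f`, so let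
`f = monomial m c` of weight `d0`: if `e + k α = d0` both sides are `D_k f`, which has weight `e`;
otherwise `comp` of `f` is `0` and `comp_e (D_k f) = 0`, as `D_k f` has the weight `d0 - k α ≠ e`
(`weightedHomogeneousComponent_of_isWeightedHomogeneous_same`/`_ne`). -/
def S_HOM : Prop := ∀ (σ M : Type) [Fintype σ] [DecidableEq σ] [AddCommGroup M] (W : σ → M)
  (g : σ → Option σ) (α : M), (∀ s s', g s = some s' → W s = W s' + α) →
  ∀ (f : S σ) (k : ℕ) (e : M),
    weightedHomogeneousComponent W e ((op g f).coeff k) =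
      (op g (weightedHomogeneousComponent W (e + k • α) f)).coeff k

/-- PIECE TGN (80 lines).  From the torus grading to the gradings of a parameter vector.

Proof. Let `v s = pair (W s) p > 0` (an integer), so `wt W p s = (v s).toNat` and `(wt W p s : ℤ) = v s`.
(1) For a monomial `m`, `weight v m = pair (weight W m) p` (pair is additive in the first argument), so
`comp` for `v` at `e` of `f` is the (finite) sum of the `comp` for `W` at `d` of `f`, over the weights `d` of the
monomials of the support of `f` with `pair d p = e`; each is in `I`. (2) compare coefficients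
(`coeff_weightedHomogeneousComponent`): `weight (wt W p) m = a` iff `weight v m = a`. (3) weights are `≥ 0`. -/
def S_TGN : Prop := ∀ (σ ρ : Type) [Fintype σ] [DecidableEq σ] [Fintype ρ] (W : σ → ρ → ℤ)
  (p : ρ → ℤ), Pos W p →
  (∀ I : Ideal (S σ), TG W I → TGM (fun s => pair (W s) p) I) ∧
  (∀ I : Ideal (S σ), TG W I → TGM (wt W p) I) ∧
  (∀ s, 0 < wt W p s) ∧ (∀ s, ((wt W p s : ℕ) : ℤ) = pair (W s) p)

/-- PIECE ZN (60 lines).  Gradings by `ℕ` and by `ℤ`.

Proof. Compare coefficients with `coeff_weightedHomogeneousComponent`; `weight (fun s => (w s : ℤ)) m`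
is the cast of `weight w m`. -/
def S_ZN : Prop := ∀ (σ : Type) [Fintype σ] [DecidableEq σ] (w : σ → ℕ) (f : S σ),
  (∀ a : ℕ, weightedHomogeneousComponent (fun s => (w s : ℤ)) (a : ℤ) f =
    weightedHomogeneousComponent w a f) ∧
  (∀ e : ℤ, e < 0 → weightedHomogeneousComponent (fun s => (w s : ℤ)) e f = 0)

/-- PIECE GRP (120 lines).  The one-parameter group.

Proof. (1) both sides are algebra homomorphisms in `f` (evaluation at the central element `C t` is a
ring homomorphism), agree on `X s` and on constants. (2) algebra homomorphisms, on `X s`: `X s + C t X s'`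
goes to `X s + C r X s' + C t X s'` as `g s' = none` (Flat). (3) on `X s`. (4) `f ↦ (op g f).coeff 0`
is a ring homomorphism (`Polynomial.constantCoeff`) fixing the `X s` and constants. (5) Evaluate both
sides at `T = C t` for all complex `t`, with (1): `∑ (-t)^k sub g t (D_k f) =
sub g t (∑ (-t)^k D_k f) = sub g t (sub g (-t) f) = f`, if `N` is larger than the degree of
`op g f`. Both sides are polynomials in `T` over the domain `S` which agree at the infinitely many elements
`C t`, so they are equal (`Polynomial.eq_of_infinite_eval_eq`). -/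
def S_GRP : Prop := ∀ (σ : Type) [Fintype σ] [DecidableEq σ] (g : σ → Option σ),
  (∀ (t : ℂ) (f : S σ), (op g f).eval (C t) = sub g t f) ∧
  (Flat g → ∀ (t r : ℂ) (f : S σ), sub g t (sub g r f) = sub g (t + r) f) ∧
  (∀ f : S σ, sub g 0 f = f) ∧
  (∀ f : S σ, (op g f).coeff 0 = f) ∧
  (Flat g → ∀ f : S σ, ∃ n : ℕ, ∀ N, n ≤ N → (Polynomial.C f : Polynomial (S σ)) =
    ∑ k ∈ Finset.range N, (-Polynomial.X) ^ k * op g ((op g f).coeff k))

/-- PIECE VDM (60 lines).  Values at complex numbers determine whether the coefficients are in `I`.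

Proof. `→`: `F.eval (C t) = ∑ F.coeff k * C t ^ k`. `←`: Vandermonde: with `n > natDegree F` and `n`
distinct complex numbers `t_i` the matrix `(t_i ^ k)` is invertible, so every coefficient is a
`ℂ`-linear combination of the values (or: induction on the degree with `n`-th differences; or map to
`(S/I)[T]` and choose a complex basis of `S/I`, i.e. apply linear functionals `l : S/I → ℂ`: the complex
polynomial `∑ l(F.coeff k) T^k` vanishes at all `t`, so it is `0`; functionals separate points). -/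
def S_VDM : Prop := ∀ (σ : Type) [Fintype σ] [DecidableEq σ] (I : Ideal (S σ))
  (F : Polynomial (S σ)), (∀ k, F.coeff k ∈ I) ↔ ∀ t : ℂ, F.eval (C t) ∈ I

/-- PIECE PZF (80 lines).  The ideal `PZ`.

Proof. (1) `opm g P f = (op g f).map (mk P)`, a polynomial is `0` iff its coefficients are.
(2) `PZ` is the kernel of a ring homomorphism into the domain `(S/P)[T]` (`RingHom.ker_isPrime`).
(3) `(op g f).coeff 0 = f` (evaluate: constant coefficient is a ring homomorphism fixing all `X s`).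
(4) by (1). (5) `JI g P 0`: `T^0 φ(f) = 0`. (6) `II g P 0`: `φ(f) = 0`. (7), (8): extend `h` by `0`; for `J`
multiply the relation by `T` and shift `h`. -/
def S_PZF : Prop := ∀ (σ : Type) [Fintype σ] [DecidableEq σ] (g : σ → Option σ) (P : Ideal (S σ)),
  (∀ f, f ∈ PZ g P ↔ ∀ k, (op g f).coeff k ∈ P) ∧ (P.IsPrime → (PZ g P).IsPrime) ∧
  PZ g P ≤ P ∧ (PZ g P = P → Stab g P) ∧ JI g P 0 = PZ g P ∧ II g P 0 = PZ g P ∧
  Monotone (JI g P) ∧ Monotone (II g P)

/-- PIECE CH (100 lines).  The chains become stationary at `JJ` and `P`.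

Proof. `JI g P` is monotone (`S_PZF`), so by noetherianity (`monotone_stabilizes_iff_noetherian`) it is
constant from some `N` on, and then `JJ = span (⋃ J_i) = J_N`. `II g P i ≤ P`: compare the constant
coefficients of `φ(f) = ∑ T^(j+1) φ(h j)`, the one of `φ(f)` is the class of `f` (`S_GRP`, 4). Conversely for
`f ∈ P` map the identity (5) of `S_GRP` to `(S/P)[T]`: `0 = φ(f) + ∑_{1 ≤ k < N} (-T)^k φ(D_k f)`
(`D_0 f = f`), so `φ(f) = ∑_{j < N - 1} T^(j+1) φ(h j)` with `h j = (-1)^j D_(j+1) f`. So the union of the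
`I_i` is `P`, and `I_N = P` for large `N` by noetherianity. -/
def S_CH : Prop := ∀ (σ : Type) [Fintype σ] [DecidableEq σ] (g : σ → Option σ) (P : Ideal (S σ)),
  Flat g → ∃ N : ℕ, 0 < N ∧ (∀ n, N ≤ n → JI g P n = JJ g P) ∧ (∀ n, N ≤ n → II g P n = P)

/-- PIECE HG (100 lines).  Relations split into homogeneous relations.

Proof. The coefficient of `T^k` in the hypothesis: the sum over the `x ∈ s` with `n x ≤ k` of
`D_(k - n x) (f x)` is in `P`. Apply `comp_e`, `e = d - k • α` (`TGM W P`) and `S_HOM`: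
`comp_e (D_(k-n) f) = D_(k-n) (comp_(e + (k-n) α) f) = D_(k-n) (comp_(d - n α) f)`. So the coefficient of
`T^k` of the claim is `0`. -/
def S_HG : Prop := ∀ (σ M : Type) [Fintype σ] [DecidableEq σ] [AddCommGroup M] (W : σ → M)
  (g : σ → Option σ) (α : M) (P : Ideal (S σ)), (∀ s s', g s = some s' → W s = W s' + α) →
  TGM W P → ∀ (ι : Type) (s : Finset ι) (n : ι → ℕ) (f : ι → S σ),
    ∑ x ∈ s, Polynomial.X ^ (n x) * opm g P (f x) = 0 →
    ∀ d : M, ∑ x ∈ s, Polynomial.X ^ (n x) *
      opm g P (weightedHomogeneousComponent W (d - n x • α) (f x)) = 0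

/-- PIECE TGJ (80 lines).  `PZ`, `JI`, `II`, `JJ` are graded.

Proof. Let `f ∈ J_i`, `T^i φ(f) - ∑_{j<i} T^j φ(h j) = 0`. By `S_HG` (index set `Option (Fin i)` or
`range (i+1)`) with the total weight `d + i α` the component `comp_d f` satisfies the same kind of
relation with `comp (h j)`. The same for `I_i` (total weight `d`) and `PZ = J_0`. `JJ` is the union of
the increasing `JI` (equal to one of them, `S_CH`). -/
def S_TGJ : Prop := ∀ (σ M : Type) [Fintype σ] [DecidableEq σ] [AddCommGroup M] (W : σ → M)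
  (g : σ → Option σ) (α : M) (P : Ideal (S σ)), (∀ s s', g s = some s' → W s = W s' + α) →
  Flat g → TGM W P → TGM W (PZ g P) ∧ (∀ i, TGM W (JI g P i)) ∧ (∀ i, TGM W (II g P i)) ∧
    TGM W (JJ g P)

/-- PIECE HFD (80 lines).  Finite dimension, and rank-nullity.

Proof. The monomials of weight `a` have exponents `≤ a` (weights are positive), so the submodule is
contained in the span of finitely many monomials. `hf` is the dimension of the image of `A_a` under
`mkₐ : S → S/I`, the kernel on `A_a` is `A_a ⊓ I`: `Submodule.finrank_map_add_finrank_ker` or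
`LinearMap.finrank_range_add_finrank_ker` for the restriction. (4): `Submodule.finrank_mono`. -/
def S_HFD : Prop := ∀ (σ : Type) [Fintype σ] [DecidableEq σ] (w : σ → ℕ), (∀ s, 0 < w s) →
  ∀ (a : ℕ), Module.Finite ℂ (weightedHomogeneousSubmodule ℂ w a) ∧
    (∀ I : Ideal (S σ),
      hf w I a + fr w I a = Module.finrank ℂ (weightedHomogeneousSubmodule ℂ w a)) ∧
    Module.finrank ℂ (weightedHomogeneousSubmodule ℂ w a) ≤ (a + 1) ^ Fintype.card σ

/-- PIECE DIM (150 lines).  The isomorphism `I_{i+1}/I_i ≅ J_{i+1}/J_i` with the shift `(i+1) τ`, as an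
identity of dimensions.

Proof. `A_a` is the submodule of degree `a`. Let `(i+1) τ ≤ a`, `b = a - (i+1) τ`, and let
`R ⊆ A_a × A_b` be the subspace of the pairs `(f, u)` such that
`φ(f) = ∑_{j<i} T^(j+1) φ(h j) + T^(i+1) φ(u)` for some `h`. First projection: the image is
`A_a ⊓ I_{i+1}` (given `f ∈ A_a ⊓ I_{i+1}` replace the relation by its homogeneous component of total
weight `a`, `S_HG` for the weights `(w s : ℤ)`, `α = τ`, and `S_ZN`: so `u` can be taken in `A_b`), the kernel is
`A_b ⊓ J_i` (`0 = ∑_{j<i} T^(j+1) φ(h j) + T^(i+1) φ(u)`; cancel `T`; for the other inclusion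
multiply by `T`). Second projection: the image is `A_b ⊓ J_{i+1}` (`T^(i+1) φ(u) = φ(h 0) + ∑_{1≤j≤i} ..`, `f = h 0`;
its component of degree `a`), the kernel is `A_a ⊓ I_i`. Rank-nullity twice.
If `a < (i+1) τ`: for `f ∈ A_a ⊓ I_{i+1}` the component of total weight `a` of the relation has
`u` replaced by a component of negative degree, which is `0` (`S_ZN`), so `f ∈ I_i`; hence
`A_a ⊓ I_{i+1} = A_a ⊓ I_i`. -/
def S_DIM : Prop := ∀ (σ : Type) [Fintype σ] [DecidableEq σ] (w : σ → ℕ) (g : σ → Option σ) (τ : ℕ)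
  (P : Ideal (S σ)), (∀ s, 0 < w s) → (∀ s s', g s = some s' → w s = w s' + τ) →
  TGM (fun s => (w s : ℤ)) P → ∀ i a : ℕ,
    fr w (II g P (i + 1)) a +
      (if (i + 1) * τ ≤ a then fr w (JI g P i) (a - (i + 1) * τ) else 0) =
    fr w (II g P i) a +
      (if (i + 1) * τ ≤ a then fr w (JI g P (i + 1)) (a - (i + 1) * τ) else 0)

/-- PIECE SUM (50 lines).  Summability, sign.

Proof. `hf w I a ≤ finrank A_a ≤ (a+1)^|σ|` by `S_HFD`; polynomial times geometric
(`summable_pow_mul_geometric_of_norm_lt_one`, with `(a+1)^m ≤ 2^m (a^m + 1)`). -/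
def S_SUM : Prop := ∀ (σ : Type) [Fintype σ] [DecidableEq σ] (w : σ → ℕ), (∀ s, 0 < w s) →
  ∀ (I : Ideal (S σ)) (q : ℝ), 0 < q → q < 1 →
    Summable (fun a : ℕ => (hf w I a : ℝ) * q ^ a) ∧ 0 ≤ Hs w I q

/-- PIECE HSI (100 lines).  One step as an identity of Hilbert series.

Proof. By `S_HFD` and `S_DIM`, for all `a`, with `e = (i+1) τ`:
`hf (II i) a + [e ≤ a] hf (JI (i+1)) (a - e) = hf (II (i+1)) a + [e ≤ a] hf (JI i) (a - e)` (natural numbers;
`hf = finrank A - fr`). Multiply by `q^a` and sum: `∑_a [e ≤ a] x_(a-e) q^a = q^e ∑_b x_b q^b`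
(`S_SUM`, `tsum` shift: `Summable.sum_add_tsum_nat_add` or `tsum_eq_tsum` along `b ↦ b + e`). -/
def S_HSI : Prop := ∀ (σ : Type) [Fintype σ] [DecidableEq σ] (w : σ → ℕ) (g : σ → Option σ) (τ : ℕ)
  (P : Ideal (S σ)), (∀ s, 0 < w s) → (∀ s s', g s = some s' → w s = w s' + τ) →
  TGM (fun s => (w s : ℤ)) P → ∀ (i : ℕ) (q : ℝ), 0 < q → q < 1 →
    Hs w (II g P i) q + q ^ ((i + 1) * τ) * Hs w (JI g P (i + 1)) q =
      Hs w (II g P (i + 1)) q + q ^ ((i + 1) * τ) * Hs w (JI g P i) q

/-- PIECE STAR (100 lines).  The formula (*); also used in section S3 with `pair α p = 0`.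

Proof. `w = wt W p`, `τ = (pair α p).toNat`; `g s = some s'` gives `w s = w s' + τ` (`OpWt`, `S_TGN`, `pair`
additive), `TGM (fun s => (w s : ℤ)) P` (`S_TGN`). Sum `S_HSI` over `i < N`:
`Hs PZ + ∑_{i<N} q^((i+1)τ) Hs (J_(i+1)) = Hs P + ∑_{i<N} q^((i+1)τ) Hs (J_i)` (induction on `N`,
`II 0 = PZ = JI 0`, `II N = P`), then Abel summation (induction on `N` as well, for every `N`:
`Hs (II N) = q^(Nτ) Hs (JI N) + (1 - q^τ) ∑_{i<N} q^(iτ) Hs (JI i)`; the step is `S_HSI`). -/
def S_STAR : Prop := ∀ (σ ρ : Type) [Fintype σ] [DecidableEq σ] [Fintype ρ] (W : σ → ρ → ℤ)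
  (g : σ → Option σ) (α : ρ → ℤ) (P : Ideal (S σ)) (N : ℕ), OpWt W g α → TG W P →
  JI g P N = JJ g P → II g P N = P →
  ∀ p, Pos W p → 0 ≤ pair α p → ∀ q : ℝ, 0 < q → q < 1 →
    Hs (wt W p) P q = q ^ (N * (pair α p).toNat) * Hs (wt W p) (JJ g P) q +
      (1 - q ^ (pair α p).toNat) *
        ∑ i ∈ Finset.range N, q ^ (i * (pair α p).toNat) * Hs (wt W p) (JI g P i) q

/-- PIECE BDD (80 lines).  Consequences of `S_LVL`: a bounded `G` has a limit; the limit is `≥ 0`.

Proof. (1) If `I = ⊤` by `S_LVL`. Otherwise let `k` be the level. If `c ≤ k` then `Has c`. If `c > k` then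
`G c = G k / (1 - q)^(c - k)` tends to infinity (`G k → L > 0`), a contradiction to the bound near `1`.
(2) `G c w I q ≥ 0` for `0 < q < 1` (`Hs ≥ 0` is a `tsum` of nonnegative terms), and `cl` is the limit
(`Tendsto.limUnder_eq`). (3) If `0 = cl c`, then `c < k` for the level `k`, so `Has (c+1)`. -/
def S_BDD : Prop := S_LVL → ∀ (σ ρ : Type) [Fintype σ] [DecidableEq σ] [Fintype ρ] (W : σ → ρ → ℤ)
  (p : ρ → ℤ), Pos W p → ∀ I : Ideal (S σ), TG W I → ∀ c : ℕ,
  ((∃ B : ℝ, ∀ᶠ q in 𝓝[<] (1 : ℝ), G c (wt W p) I q ≤ B) → Has c (wt W p) I) ∧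
  (Has c (wt W p) I → 0 ≤ cl c (wt W p) I ∧
    Tendsto (G c (wt W p) I) (𝓝[<] 1) (𝓝 (cl c (wt W p) I))) ∧
  (Has c (wt W p) I → cl c (wt W p) I = 0 → Has (c + 1) (wt W p) I)

/-- PIECE LIM (150 lines).  The limit of (*).

Proof. Write `w = wt W p`. Dividing by `(1-q)^(c+1)` and multiplying by the constants:
`G (c+1) P = q^(Nτ) G (c+1) (Ji N) + ((1-q^τ)/(1-q)) ∑_{i<N} q^(iτ) G c (Ji i)`, all terms `≥ 0` on `(0,1)`.
`G (c+1) P` is bounded near `1`, `q^(Nτ) ≥ 1/2` near `1`, `(1-q^τ)/(1-q) ≥ 1`, so `G (c+1) (Ji N)` and the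
`G c (Ji i)`, `i < N`, are bounded near `1`, so they have limits (`S_BDD`). `(1-q^τ)/(1-q) → τ`. The limit:
`cl (c+1) P = cl (c+1) (Ji N) + τ ∑_{i<N} cl c (Ji i)` (`tendsto_nhds_unique`). `cl c (Ji i) = cl c Z` if
`Ji i = Z`, and `0` otherwise (`S_STRICT` for `Z < Ji i`). Positivity: if `cl c Z = 0` then `Has (c+1) Z`
(`S_BDD`), so `cl (c+1) P = 0` by `S_STRICT` for `Z < P`. -/
def S_LIM : Prop := S_LVL → S_STRICT → ∀ (σ ρ : Type) [Fintype σ] [DecidableEq σ] [Fintype ρ]
  (W : σ → ρ → ℤ) (P Z : Ideal (S σ)) (Ji : ℕ → Ideal (S σ)) (N m : ℕ), Z.IsPrime → TG W Z →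
  TG W P → (∀ i, TG W (Ji i)) → Z ≤ P → Z ≠ P → Ji 0 = Z → (∀ i, Z ≤ Ji i) → 0 < N →
  (∃ s : Finset ℕ, s.card = m ∧ ∀ i, i ∈ s ↔ i < N ∧ Ji i = Z) →
  ∀ (p : ρ → ℤ) (τ : ℕ), Pos W p → 0 < τ →
  (∀ q : ℝ, 0 < q → q < 1 → Hs (wt W p) P q = q ^ (N * τ) * Hs (wt W p) (Ji N) q +
      (1 - q ^ τ) * ∑ i ∈ Finset.range N, q ^ (i * τ) * Hs (wt W p) (Ji i) q) →
  ∀ c, Has (c + 1) (wt W p) P →
    Has (c + 1) (wt W p) (Ji N) ∧ Has c (wt W p) Z ∧
    (0 < cl (c + 1) (wt W p) P → 0 < cl c (wt W p) Z) ∧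
    cl (c + 1) (wt W p) P =
      cl (c + 1) (wt W p) (Ji N) + m * (τ : ℝ) * cl c (wt W p) Z

/-- PIECE SJ (80 lines).  `J_N` is stable under its own group.

Proof. Let `A : S[T] → S[T]`, `A F = F.comp (T + C (C r))` (a ring homomorphism, `Polynomial.compRingHom`). By
`S_GRP` `A (op g f) = op g (sub g r f)` (evaluate at `C t`: `sub g (t + r) f = sub g t (sub g r f)`; equal at
infinitely many elements). `A` maps polynomials with coefficients in `P` to such polynomials, so
from `T^N op g f - ∑_{j<N} T^j op g (h j)` with coefficients in `P` we get in `(S/P)[T]`: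
`(T + r)^N φ(f') = ∑_{j<N} (T + r)^j φ(h' j)`, `f' = sub g r f`, `h' j = sub g r (h j)`. Expand the powers
(`add_pow`): `(T + r)^N = T^N + lower terms`, constants `r^l` go into `φ` (`φ` is `ℂ`-linear). So `T^N φ(f')` is
in `∑_{l<N} T^l φ(S)`. -/
def S_SJ : Prop := ∀ (σ : Type) [Fintype σ] [DecidableEq σ] (g : σ → Option σ) (P : Ideal (S σ)),
  Flat g → ∀ (N : ℕ) (r : ℂ) (f : S σ), InJ g P N f → InJ g P N (sub g r f)

/-- PIECE NJ (120 lines).  `J_N` is stable under a group that normalizes `g`.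

Proof. Let `A : S[T] → S[T]` be the ring homomorphism with `A T = T` and `A (C f) = ` the image of `op k f`
under `T ↦ ε r T` (`Polynomial.comp (C (C (ε * r)) * X)`) and then `sub h r` on the coefficients
(`Polynomial.mapRingHom`); so `A = Polynomial.eval₂RingHom ψ X`. For every complex `t`
`(A F).eval (C t) = sub h r (sub k (ε t r) (F.eval (C t)))` (both are ring homomorphisms in `F`, agree on
`T` and on `C f` by `S_GRP` (1)). So `A (op g f) = op g (sub h r f)` by `NormRel` (evaluations at all `C t`).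
`A` maps polynomials with coefficients in `P` to such polynomials: `Stab k P`, and `sub h r P ⊆ P`
(`Stab h P` and `sub h r f = ∑ C r ^ k * D_k f`). Apply `A` to
`T^N op g f - ∑_{j<N} T^j op g (h' j)`, which has coefficients in `P`:
`T^N φ(sub h r f) = ∑_{j<N} T^j φ(sub h r (h' j))`. -/
def S_NJ : Prop := ∀ (σ : Type) [Fintype σ] [DecidableEq σ] (g h k : σ → Option σ) (ε : ℂ)
  (P : Ideal (S σ)), Flat g → Flat h → Flat k → NormRel g h k ε → Stab h P → Stab k P →
  ∀ (N : ℕ) (r : ℂ) (f : S σ), InJ g P N f → InJ g P N (sub h r f)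

end Pool.Agent.KIR.S2
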