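import Pool.Agent.KIR.Base
import Pool.Agent.KIR.S2.Stm

/-!
# KIR, section S2, piece HFD (helper51): finite dimension and rank-nullity
-/
set_option autoImplicit false
namespace Pool.Agent.KIR.S2
open MvPolynomial Filter Topology Pool.Agent.KIR

theorem HFD.card_le {σ : Type} [Fintype σ] [DecidableEq σ] (w : σ → ℕ) (hw : ∀ s, 0 < w s) (a : ℕ) :
    Module.finrank ℂ (weightedHomogeneousSubmodule ℂ w a) ≤ (a + 1) ^ Fintype.card σ := by
  classical
  -- the exponents of weight `a`
  have hle : ∀ m : σ →₀ ℕ, Finsupp.weight w m = a → ∀ s, m s ≤ a := by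
    intro m hm s
    have h1 : m s * w s ≤ Finsupp.weight w m := by
      rw [Finsupp.weight_apply, Finsupp.sum_fintype _ _ (fun i => by simp)]
      have := Finset.single_le_sum (f := fun i => m i • w i) (fun i _ => Nat.zero_le _)
        (Finset.mem_univ s)
      simpa using this
    have h2 := hw s
    nlinarith
  let e : {m : σ →₀ ℕ // Finsupp.weight w m = a} → (σ → Fin (a + 1)) :=
    fun m s => ⟨m.1 s, Nat.lt_succ_of_le (hle m.1 m.2 s)⟩
  have he : Function.Injective e := by
    intro m m' h
    apply Subtype.ext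
    ext s
    have := congrFun h s
    simpa [e] using this
  have : Finite {m : σ →₀ ℕ // Finsupp.weight w m = a} := Finite.of_injective e he
  have := Fintype.ofFinite {m : σ →₀ ℕ // Finsupp.weight w m = a}
  have hc : Fintype.card {m : σ →₀ ℕ // Finsupp.weight w m = a} ≤ (a + 1) ^ Fintype.card σ := by
    refine (Fintype.card_le_of_injective e he).trans ?_
    simp
  -- spanned by the monomials
  have hs : weightedHomogeneousSubmodule ℂ w a ≤ Submodule.span ℂ
      (Set.range (fun m : {m : σ →₀ ℕ // Finsupp.weight w m = a} => monomial m.1 (1 : ℂ))) := by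
    intro f hf
    rw [mem_weightedHomogeneousSubmodule] at hf
    rw [f.as_sum]
    refine Submodule.sum_mem _ fun m hm => ?_
    have h1 : (monomial m (coeff m f) : MvPolynomial σ ℂ) = coeff m f • monomial m (1 : ℂ) := by
      rw [smul_monomial, smul_eq_mul, mul_one]
    rw [h1]
    refine Submodule.smul_mem _ _ (Submodule.subset_span ⟨⟨m, hf (mem_support_iff.1 hm)⟩, rfl⟩)
  have h2 : Module.finrank ℂ (Submodule.span ℂ
      (Set.range (fun m : {m : σ →₀ ℕ // Finsupp.weight w m = a} => monomial m.1 (1 : ℂ)))) ≤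
      Fintype.card {m : σ →₀ ℕ // Finsupp.weight w m = a} := by
    refine (finrank_span_le_card _).trans ?_
    rw [Set.toFinset_range]
    exact Finset.card_image_le
  have : FiniteDimensional ℂ (Submodule.span ℂ
      (Set.range (fun m : {m : σ →₀ ℕ // Finsupp.weight w m = a} => monomial m.1 (1 : ℂ)))) :=
    FiniteDimensional.span_of_finite ℂ (Set.finite_range _)
  exact (Submodule.finrank_mono hs).trans (h2.trans hc)

theorem t_HFD : S_HFD := by
  intro σ _ _ w hw a
  refine ⟨Base.fd w hw a, fun I => ?_, HFD.card_le w hw a⟩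
  have h1 := Base.hf_eq w hw I a
  have h2 : fr w I a = Module.finrank ℂ (Base.Ia w I a) := by
    unfold fr Base.Ia
    have h3 : (LinearMap.ker (Base.mkl I) : Submodule ℂ (S σ)) = I.restrictScalars ℂ := by
      ext f
      rw [LinearMap.mem_ker, Base.mkl_eq_zero, Submodule.restrictScalars_mem]
    rw [h3]
  rw [h2]
  exact h1

end Pool.Agent.KIR.S2
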