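import Pool.Agent.KIR.S2.Stm
/-!
# KIR, section S2, piece HSI: one step as an identity of Hilbert series
-/
set_option autoImplicit false
namespace Pool.Agent.KIR.S2
open MvPolynomial Filter Topology Pool.Agent.KIR

namespace HSI

theorem shift (x : ℕ → ℕ) (e : ℕ) (q : ℝ) (hs : Summable (fun a : ℕ => (x a : ℝ) * q ^ a)) :
    Summable (fun a : ℕ => ((if e ≤ a then x (a - e) else 0 : ℕ) : ℝ) * q ^ a) ∧
      ∑' a : ℕ, ((if e ≤ a then x (a - e) else 0 : ℕ) : ℝ) * q ^ a =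
        q ^ e * ∑' a : ℕ, (x a : ℝ) * q ^ a := by
  set F : ℕ → ℝ := fun a => ((if e ≤ a then x (a - e) else 0 : ℕ) : ℝ) * q ^ a with hF
  have h1 : ∀ b : ℕ, F (b + e) = q ^ e * ((x b : ℝ) * q ^ b) := by
    intro b
    simp only [hF]
    rw [if_pos (Nat.le_add_left e b), Nat.add_sub_cancel, pow_add]
    ring
  have h2 : Summable (fun b : ℕ => F (b + e)) := by
    simp_rw [h1]
    exact hs.mul_left _
  have h3 : Summable F := (summable_nat_add_iff e).1 h2
  refine ⟨h3, ?_⟩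
  rw [← h3.sum_add_tsum_nat_add e]
  have h4 : ∑ i ∈ Finset.range e, F i = 0 := by
    refine Finset.sum_eq_zero fun i hi => ?_
    simp only [hF]
    rw [if_neg (by have := Finset.mem_range.1 hi; omega)]
    simp
  rw [h4, zero_add]
  simp_rw [h1]
  rw [tsum_mul_left]

end HSI

open HSI in
theorem t_HSI (hHFD : S_HFD) (hDIM : S_DIM) (hSUM : S_SUM) : S_HSI := by
  intro σ _ _ w g τ P hw hg hP i q hq0 hq1
  set e := (i + 1) * τ with he
  have key : ∀ a : ℕ, hf w (II g P i) a + (if e ≤ a then hf w (JI g P (i + 1)) (a - e) else 0) =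
      hf w (II g P (i + 1)) a + (if e ≤ a then hf w (JI g P i) (a - e) else 0) := by
    intro a
    have h1 := hDIM σ w g τ P hw hg hP i a
    have h2 := (hHFD σ w hw a).2.1 (II g P i)
    have h3 := (hHFD σ w hw a).2.1 (II g P (i + 1))
    rw [← he] at h1
    by_cases hea : e ≤ a
    · rw [if_pos hea, if_pos hea] at h1
      rw [if_pos hea, if_pos hea]
      have h4 := (hHFD σ w hw (a - e)).2.1 (JI g P i)
      have h5 := (hHFD σ w hw (a - e)).2.1 (JI g P (i + 1))
      omega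
    · rw [if_neg hea, if_neg hea] at h1
      rw [if_neg hea, if_neg hea]
      omega
  have s1 := (hSUM σ w hw (II g P i) q hq0 hq1).1
  have s2 := (hSUM σ w hw (II g P (i + 1)) q hq0 hq1).1
  have s3 := (hSUM σ w hw (JI g P i) q hq0 hq1).1
  have s4 := (hSUM σ w hw (JI g P (i + 1)) q hq0 hq1).1
  obtain ⟨a3, b3⟩ := shift (hf w (JI g P i)) e q s3
  obtain ⟨a4, b4⟩ := shift (hf w (JI g P (i + 1))) e q s4
  change (∑' a : ℕ, (hf w (II g P i) a : ℝ) * q ^ a) +
      q ^ e * (∑' a : ℕ, (hf w (JI g P (i + 1)) a : ℝ) * q ^ a) =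
    (∑' a : ℕ, (hf w (II g P (i + 1)) a : ℝ) * q ^ a) +
      q ^ e * (∑' a : ℕ, (hf w (JI g P i) a : ℝ) * q ^ a)
  rw [← b3, ← b4, ← s1.tsum_add a4, ← s2.tsum_add a3]
  refine tsum_congr fun a => ?_
  rw [← add_mul, ← add_mul, ← Nat.cast_add, ← Nat.cast_add, key a]

end Pool.Agent.KIR.S2
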