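import Pool.Agent.KIR.S2.BDD
/-!
# KIR, section S2, piece LIM (helper84)

The limit of the formula (*).
-/
set_option autoImplicit false
namespace Pool.Agent.KIR.S2
open MvPolynomial Filter Topology Pool.Agent.KIR

namespace LIM
variable {σ : Type} [Fintype σ]

/-- the formula (*) for the normalized series -/
theorem G_formula (w : σ → ℕ) (P : Ideal (S σ)) (Ji : ℕ → Ideal (S σ)) (N τ c : ℕ) {q : ℝ}
    (h1 : q < 1)
    (h : Hs w P q = q ^ (N * τ) * Hs w (Ji N) q +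
      (1 - q ^ τ) * ∑ i ∈ Finset.range N, q ^ (i * τ) * Hs w (Ji i) q) :
    G (c + 1) w P q = q ^ (N * τ) * G (c + 1) w (Ji N) q +
      (∑ k ∈ Finset.range τ, q ^ k) *
        ∑ i ∈ Finset.range N, q ^ (i * τ) * G c w (Ji i) q := by
  have h2 : (1 - q) ≠ 0 := by linarith
  have h3 : (1 - q ^ τ) = (1 - q) * ∑ k ∈ Finset.range τ, q ^ k := (mul_neg_geom_sum q τ).symm
  have h4 : ∑ i ∈ Finset.range N, q ^ (i * τ) * G c w (Ji i) q =
      (∏ s, (w s : ℝ)) * (1 - q) ^ (Fintype.card σ) / (1 - q) ^ c *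
        ∑ i ∈ Finset.range N, q ^ (i * τ) * Hs w (Ji i) q := by
    rw [Finset.mul_sum]
    refine Finset.sum_congr rfl fun i _ => ?_
    unfold G
    ring
  rw [h4]
  generalize ∑ i ∈ Finset.range N, q ^ (i * τ) * Hs w (Ji i) q = A at *
  rw [h3] at h
  generalize ∑ k ∈ Finset.range τ, q ^ k = R at *
  unfold G
  rw [h, pow_succ]
  field_simp

theorem tendsto_pow_one (n : ℕ) : Tendsto (fun q : ℝ => q ^ n) (𝓝[<] 1) (𝓝 1) := by
  have h : Tendsto (fun q : ℝ => q ^ n) (𝓝 1) (𝓝 (1 ^ n)) := (continuous_pow n).tendsto 1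
  rw [one_pow] at h
  exact h.mono_left nhdsWithin_le_nhds

theorem ev_half (n : ℕ) : ∀ᶠ q : ℝ in 𝓝[<] (1 : ℝ), (1 : ℝ) / 2 ≤ q ^ n :=
  (tendsto_pow_one n).eventually (Ici_mem_nhds (by norm_num))

theorem tendsto_geom (τ : ℕ) :
    Tendsto (fun q : ℝ => ∑ k ∈ Finset.range τ, q ^ k) (𝓝[<] 1) (𝓝 (τ : ℝ)) := by
  have h : Tendsto (fun q : ℝ => ∑ k ∈ Finset.range τ, q ^ k) (𝓝[<] 1)
      (𝓝 (∑ _k ∈ Finset.range τ, (1 : ℝ))) :=
    tendsto_finset_sum _ fun k _ => tendsto_pow_one k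
  simpa using h

theorem one_le_geom {τ : ℕ} (hτ : 0 < τ) {q : ℝ} (h0 : 0 < q) :
    1 ≤ ∑ k ∈ Finset.range τ, q ^ k := by
  have h := Finset.single_le_sum (f := fun k : ℕ => q ^ k) (s := Finset.range τ)
    (fun k _ => pow_nonneg h0.le k) (Finset.mem_range.2 hτ)
  simpa using h

end LIM

open BDD LIM in
theorem t_LIM : S_LIM := by
  intro hL hS σ ρ _ _ _ W P Z Ji N m hZp hZ hP hJ hle hne hJ0 hZJ hN hs p τ hp hτ hform c hc
  obtain ⟨s, hsc, hsm⟩ := hs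
  have hF : ∀ᶠ q : ℝ in 𝓝[<] (1 : ℝ), G (c + 1) (wt W p) P q =
      q ^ (N * τ) * G (c + 1) (wt W p) (Ji N) q + (∑ k ∈ Finset.range τ, q ^ k) *
        ∑ i ∈ Finset.range N, q ^ (i * τ) * G c (wt W p) (Ji i) q := by
    filter_upwards [ev01] with q hq
    exact G_formula (wt W p) P Ji N τ c hq.2 (hform q hq.1 hq.2)
  have hB : ∀ᶠ q : ℝ in 𝓝[<] (1 : ℝ), G (c + 1) (wt W p) P q ≤ cl (c + 1) (wt W p) P + 1 :=
    (tendsto_cl hc).eventually (Iic_mem_nhds (by linarith))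
  -- the second summand is nonnegative
  have hS0 : ∀ q : ℝ, 0 < q → q < 1 → ∀ i ∈ Finset.range N,
      0 ≤ q ^ (i * τ) * G c (wt W p) (Ji i) q := fun q h0 h1 i _ =>
    mul_nonneg (pow_nonneg h0.le _) (G_nonneg c _ _ h0 h1)
  have hN1 : Has (c + 1) (wt W p) (Ji N) := by
    refine ((t_BDD hL σ ρ W p hp (Ji N) (hJ N) (c + 1)).1) ⟨2 * (cl (c + 1) (wt W p) P + 1), ?_⟩
    filter_upwards [hF, hB, ev01, ev_half (N * τ)] with q h1 h2 h3 h4
    have h5 := G_nonneg (c + 1) (wt W p) (Ji N) h3.1 h3.2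
    have h6 : 0 ≤ (∑ k ∈ Finset.range τ, q ^ k) *
        ∑ i ∈ Finset.range N, q ^ (i * τ) * G c (wt W p) (Ji i) q :=
      mul_nonneg (by linarith [one_le_geom hτ h3.1]) (Finset.sum_nonneg (hS0 q h3.1 h3.2))
    have h7 : 1 / 2 * G (c + 1) (wt W p) (Ji N) q ≤ q ^ (N * τ) * G (c + 1) (wt W p) (Ji N) q :=
      mul_le_mul_of_nonneg_right h4 h5
    linarith
  have hi1 : ∀ i ∈ Finset.range N, Has c (wt W p) (Ji i) := by
    intro i hi
    refine ((t_BDD hL σ ρ W p hp (Ji i) (hJ i) c).1) ⟨2 * (cl (c + 1) (wt W p) P + 1), ?_⟩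
    filter_upwards [hF, hB, ev01, ev_half (i * τ)] with q h1 h2 h3 h4
    have h5 := G_nonneg c (wt W p) (Ji i) h3.1 h3.2
    have h6 : 0 ≤ q ^ (N * τ) * G (c + 1) (wt W p) (Ji N) q :=
      mul_nonneg (pow_nonneg h3.1.le _) (G_nonneg _ _ _ h3.1 h3.2)
    have h7 : 1 / 2 * G c (wt W p) (Ji i) q ≤ q ^ (i * τ) * G c (wt W p) (Ji i) q :=
      mul_le_mul_of_nonneg_right h4 h5
    have h8 := Finset.single_le_sum (hS0 q h3.1 h3.2) hi
    have h9 : 0 ≤ ∑ i ∈ Finset.range N, q ^ (i * τ) * G c (wt W p) (Ji i) q :=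
      Finset.sum_nonneg (hS0 q h3.1 h3.2)
    have h10 : 1 * ∑ i ∈ Finset.range N, q ^ (i * τ) * G c (wt W p) (Ji i) q ≤
        (∑ k ∈ Finset.range τ, q ^ k) *
          ∑ i ∈ Finset.range N, q ^ (i * τ) * G c (wt W p) (Ji i) q :=
      mul_le_mul_of_nonneg_right (one_le_geom hτ h3.1) h9
    linarith
  have hZc : Has c (wt W p) Z := by
    have h := hi1 0 (Finset.mem_range.2 hN)
    rwa [hJ0] at h
  have hsum : ∑ i ∈ Finset.range N, cl c (wt W p) (Ji i) = m * cl c (wt W p) Z := by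
    have h1 : s ⊆ Finset.range N := fun i hi => Finset.mem_range.2 ((hsm i).1 hi).1
    rw [← Finset.sum_subset h1 (fun i hi hi' => ?_)]
    · rw [Finset.sum_congr rfl (fun i hi => by rw [((hsm i).1 hi).2] :
        ∀ i ∈ s, cl c (wt W p) (Ji i) = cl c (wt W p) Z), Finset.sum_const, hsc, nsmul_eq_mul]
    · have h2 : Z ≠ Ji i := fun h => hi' ((hsm i).2 ⟨Finset.mem_range.1 hi, h.symm⟩)
      exact (hS σ ρ W Z (Ji i) p hp hZp hZ (hJ i) (hZJ i) h2 c hZc).2.2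
  have hlim : Tendsto (fun q : ℝ => q ^ (N * τ) * G (c + 1) (wt W p) (Ji N) q +
      (∑ k ∈ Finset.range τ, q ^ k) *
        ∑ i ∈ Finset.range N, q ^ (i * τ) * G c (wt W p) (Ji i) q) (𝓝[<] 1)
      (𝓝 (1 * cl (c + 1) (wt W p) (Ji N) +
        (τ : ℝ) * ∑ i ∈ Finset.range N, 1 * cl c (wt W p) (Ji i))) := by
    refine ((tendsto_pow_one _).mul (tendsto_cl hN1)).add ((tendsto_geom τ).mul ?_)
    exact tendsto_finset_sum _ fun i hi => (tendsto_pow_one _).mul (tendsto_cl (hi1 i hi))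
  have heq : cl (c + 1) (wt W p) P = cl (c + 1) (wt W p) (Ji N) +
      m * (τ : ℝ) * cl c (wt W p) Z := by
    have h1 := tendsto_nhds_unique ((tendsto_cl hc).congr' hF) hlim
    simp only [one_mul] at h1
    rw [h1, hsum]
    ring
  refine ⟨hN1, hZc, fun hpos => ?_, heq⟩
  rcases (cl_nonneg hZc).lt_or_eq with h | h
  · exact h
  · exfalso
    have h1 := (t_BDD hL σ ρ W p hp Z hZ c).2.2 hZc h.symm
    have h2 := (hS σ ρ W Z P p hp hZp hZ hP hle hne (c + 1) h1).2.2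
    linarith

end Pool.Agent.KIR.S2
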